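import Pool.Agent.TF.K.Def
import Pool.Agent.TF.M.Osee

/-!
# Block K, row Av (helper89): averaging over balls
-/

set_option autoImplicit false

namespace Pool.Agent.TF.K

open MeasureTheory Set Filter Topology Pool.Agent.TO Pool.Agent.TB Pool.Agent.TP
open scoped Real ENNReal

theorem av_point {κ r : ℝ} (hκ : 0 < κ) (hr : r ^ 2 ≤ 2 * κ) (x y z : E3)
    (h : dist z y < r) :
    ENNReal.ofReal (((κ + ‖x - y‖ ^ 2) ^ 2)⁻¹) ≤
      25 * ENNReal.ofReal (((κ + ‖x - z‖ ^ 2) ^ 2)⁻¹) := by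
  have h25 : (25 : ℝ≥0∞) = ENNReal.ofReal 25 := by simp
  rw [h25, ← ENNReal.ofReal_mul (by norm_num)]
  apply ENNReal.ofReal_le_ofReal
  have h1 : ‖x - z‖ ≤ ‖x - y‖ + r := by
    have h2 : x - z = (x - y) + (y - z) := by abel
    rw [h2]
    refine (norm_add_le _ _).trans ?_
    rw [dist_comm, dist_eq_norm] at h
    linarith
  have h3 : κ + ‖x - z‖ ^ 2 ≤ 5 * (κ + ‖x - y‖ ^ 2) := by
    have h4 : ‖x - z‖ ^ 2 ≤ (‖x - y‖ + r) ^ 2 := pow_le_pow_left₀ (norm_nonneg _) h1 2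
    nlinarith [sq_nonneg (‖x - y‖ - r), sq_nonneg ‖x - y‖]
  have ha : 0 < κ + ‖x - y‖ ^ 2 := by positivity
  have hb : 0 < κ + ‖x - z‖ ^ 2 := by positivity
  rw [← div_eq_mul_inv, le_div_iff₀ (by positivity), ← div_eq_inv_mul, div_le_iff₀ (by positivity)]
  calc (κ + ‖x - z‖ ^ 2) ^ 2 ≤ (5 * (κ + ‖x - y‖ ^ 2)) ^ 2 := pow_le_pow_left₀ hb.le h3 2
    _ = 25 * (κ + ‖x - y‖ ^ 2) ^ 2 := by ring

theorem av_int {κ : ℝ} (hκ : 0 < κ) (x : E3) :
    ∫⁻ z : E3, ENNReal.ofReal (((κ + ‖x - z‖ ^ 2) ^ 2)⁻¹) = ENNReal.ofReal (JJ 4 / √κ) := by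
  have hs : 0 < √κ := Real.sqrt_pos.2 hκ
  have h1 : ∫⁻ z : E3, ENNReal.ofReal (((κ + ‖x - z‖ ^ 2) ^ 2)⁻¹) =
      ∫⁻ z : E3, ENNReal.ofReal (((κ + ‖z‖ ^ 2) ^ 2)⁻¹) :=
    lintegral_sub_left_eq_self (fun z : E3 => ENNReal.ofReal (((κ + ‖z‖ ^ 2) ^ 2)⁻¹)) x
  have h2 : ∫⁻ z : E3, ENNReal.ofReal (((κ + ‖z‖ ^ 2) ^ 2)⁻¹) =
      ∫⁻ z : E3, ENNReal.ofReal (sg (√κ) z ^ 4) :=
    lintegral_congr fun z => by rw [sg_sqrt_pow hκ]
  rw [h1, h2, ← ofReal_integral_eq_lintegral_ofReal (integrable_sg hs le_rfl)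
    (Eventually.of_forall fun z => (pow_pos (sg_pos hs z) 4).le), integral_sg hs]
  congr 1
  field_simp

theorem av_swap (W g : E3 → ℝ≥0∞) (hW : Measurable W) (hg : Measurable g) (r : ℝ) :
    ∫⁻ y, ∫⁻ z, W z * (Metric.ball z r).indicator g y =
      ∫⁻ z, W z * ∫⁻ y in Metric.ball z r, g y := by
  have hS : MeasurableSet {p : E3 × E3 | dist p.1 p.2 < r} :=
    measurableSet_lt (by fun_prop) measurable_const
  have he : (Function.uncurry fun y z => W z * (Metric.ball z r).indicator g y) =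
      {p : E3 × E3 | dist p.1 p.2 < r}.indicator (fun p : E3 × E3 => W p.2 * g p.1) := by
    funext p
    by_cases hp : dist p.1 p.2 < r
    · have h1 : p.1 ∈ Metric.ball p.2 r := hp
      have h2 : p ∈ {p : E3 × E3 | dist p.1 p.2 < r} := hp
      rw [indicator_of_mem h2, Function.uncurry_def]
      simp only
      rw [indicator_of_mem h1]
    · have h1 : p.1 ∉ Metric.ball p.2 r := hp
      have h2 : p ∉ {p : E3 × E3 | dist p.1 p.2 < r} := hp
      rw [indicator_of_notMem h2, Function.uncurry_def]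
      simp only
      rw [indicator_of_notMem h1, mul_zero]
  have hm : Measurable (Function.uncurry fun y z => W z * (Metric.ball z r).indicator g y) := by
    rw [he]
    exact ((hW.comp measurable_snd).mul (hg.comp measurable_fst)).indicator hS
  rw [lintegral_lintegral_swap hm.aemeasurable]
  refine lintegral_congr fun z => ?_
  rw [lintegral_const_mul _ (hg.indicator measurableSet_ball),
    lintegral_indicator measurableSet_ball]

theorem av_main (W : E3 → ℝ≥0∞) (hW : Measurable W) (r : ℝ) (hr : 0 < r)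
    (hp : ∀ y z : E3, dist z y < r → W y ≤ 25 * W z) (g : E3 → ℝ≥0∞) (hg : Measurable g)
    (B : ℝ≥0∞) (hB : ∀ z, ∫⁻ y in Metric.ball z r, g y ≤ B) :
    ENNReal.ofReal (r ^ 3) * volume (Metric.ball (0 : E3) 1) * ∫⁻ y, W y * g y ≤
      25 * (∫⁻ z, W z) * B := by
  calc ENNReal.ofReal (r ^ 3) * volume (Metric.ball (0 : E3) 1) * ∫⁻ y, W y * g y
      = ∫⁻ y, ENNReal.ofReal (r ^ 3) * volume (Metric.ball (0 : E3) 1) * (W y * g y) :=
        (lintegral_const_mul _ (hW.mul hg)).symm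
    _ = ∫⁻ y, ∫⁻ z, (Metric.ball y r).indicator (fun _ => W y * g y) z := by
        refine lintegral_congr fun y => ?_
        rw [lintegral_indicator_const measurableSet_ball,
          Measure.addHaar_ball_of_pos volume y hr, finrank_euclideanSpace,
          Fintype.card_fin, mul_comm]
    _ ≤ ∫⁻ y, ∫⁻ z, (25 * W z) * (Metric.ball z r).indicator g y := by
        refine lintegral_mono fun y => lintegral_mono fun z => ?_
        by_cases hz : dist z y < r
        · have h1 : z ∈ Metric.ball y r := hz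
          have h2 : y ∈ Metric.ball z r := by
            rw [Metric.mem_ball, dist_comm]
            exact hz
          rw [indicator_of_mem h1, indicator_of_mem h2]
          exact mul_le_mul_left (hp y z hz) (g y)
        · have h1 : z ∉ Metric.ball y r := hz
          rw [indicator_of_notMem h1]
          exact zero_le
    _ = ∫⁻ z, (25 * W z) * ∫⁻ y in Metric.ball z r, g y :=
        av_swap (fun z => 25 * W z) g (hW.const_mul 25) hg r
    _ ≤ ∫⁻ z, (25 * W z) * B := lintegral_mono fun z => mul_le_mul_right (hB z) _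
    _ = 25 * (∫⁻ z, W z) * B := by
        rw [lintegral_mul_const _ (hW.const_mul 25), lintegral_const_mul _ hW]

theorem stAv : StAv := by
  have hv0 : volume (Metric.ball (0 : E3) 1) ≠ 0 :=
    (Metric.measure_ball_pos volume (0 : E3) one_pos).ne'
  have hvt : volume (Metric.ball (0 : E3) 1) ≠ ⊤ := measure_ball_lt_top.ne
  obtain ⟨V, hV, hvV⟩ : ∃ V : ℝ, 0 < V ∧
      volume (Metric.ball (0 : E3) 1) = ENNReal.ofReal V :=
    ⟨_, ENNReal.toReal_pos hv0 hvt, (ENNReal.ofReal_toReal hvt).symm⟩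
  have hJ : 0 < JJ 4 := JJ_pos le_rfl
  refine ⟨25 * JJ 4 / V, by positivity, ?_⟩
  intro g hg κ r hκ hr hr2 B hB x
  have hs : 0 < √κ := Real.sqrt_pos.2 hκ
  have hWm : Measurable fun z : E3 => ENNReal.ofReal (((κ + ‖x - z‖ ^ 2) ^ 2)⁻¹) := by
    refine ENNReal.measurable_ofReal.comp (Measurable.inv ?_)
    fun_prop
  have key := av_main _ hWm r hr (fun y z h => av_point hκ hr2 x y z h) g hg B hB
  rw [av_int hκ x, hvV, ← ENNReal.ofReal_mul (by positivity)] at key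
  generalize (∫⁻ y : E3, ENNReal.ofReal (((κ + ‖x - y‖ ^ 2) ^ 2)⁻¹) * g y) = J at key ⊢
  have hc0 : ENNReal.ofReal (r ^ 3 * V) ≠ 0 := by
    rw [Ne, ENNReal.ofReal_eq_zero, not_le]
    positivity
  have hct : ENNReal.ofReal (r ^ 3 * V) ≠ ⊤ := ENNReal.ofReal_ne_top
  have h1 : J ≤ (ENNReal.ofReal (r ^ 3 * V))⁻¹ *
      (25 * ENNReal.ofReal (JJ 4 / √κ) * B) := by
    calc J = (ENNReal.ofReal (r ^ 3 * V))⁻¹ * (ENNReal.ofReal (r ^ 3 * V) * J) := by
            rw [← mul_assoc, ENNReal.inv_mul_cancel hc0 hct, one_mul]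
      _ ≤ _ := mul_le_mul_right key _
  refine h1.trans (le_of_eq ?_)
  have h25 : (25 : ℝ≥0∞) = ENNReal.ofReal 25 := by simp
  rw [← mul_assoc, h25, ← ENNReal.ofReal_mul (by norm_num), ← ENNReal.ofReal_inv_of_pos
    (by positivity), ← ENNReal.ofReal_mul (by positivity)]
  congr 2
  field_simp

end Pool.Agent.TF.K
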