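import Pool.Agent.TF.K.Def
import Pool.Agent.TF.M.Osee
import Pool.Agent.TP.Low

/-!
# Koch and Tataru: the pointwise bounds (helper78)
-/

set_option autoImplicit false

namespace Pool.Agent.TF.K

open MeasureTheory Set Filter Topology Pool.Agent.TO Pool.Agent.TB Pool.Agent.TP
open scoped Real ENNReal

theorem su_gauss {κ σ : ℝ} (hκ : 0 < κ) (h1 : κ ≤ σ) (h2 : σ ≤ 2 * κ) (z : E3) :
    gauss σ z ≤ 256 * √κ * ((κ + ‖z‖ ^ 2) ^ 2)⁻¹ := by
  have hσ : 0 < σ := hκ.trans_le h1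
  obtain ⟨s, hs, rfl⟩ : ∃ s : ℝ, 0 < s ∧ s ^ 2 = κ :=
    ⟨√κ, Real.sqrt_pos.2 hκ, Real.sq_sqrt hκ.le⟩
  rw [Real.sqrt_sq hs.le]
  have h3 := gauss_le hσ z
  have h4 : s ≤ √σ := (Real.le_sqrt' hs).2 h1
  have h5 : ((√σ) ^ 3)⁻¹ ≤ (s ^ 3)⁻¹ := by gcongr
  set n := ‖z‖ with hn
  have h6 : Real.exp (-n ^ 2 / (4 * σ)) ≤ Real.exp (-((n / s) ^ 2 / 8)) := by
    apply Real.exp_le_exp.2
    rw [div_pow, neg_div, neg_le_neg_iff, div_div]
    exact div_le_div_of_nonneg_left (sq_nonneg n) (by positivity) (by nlinarith)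
  have h7 := pow_mul_exp_le (m := 2) (by norm_num) (c := 8) (by norm_num) (sq_nonneg (n / s))
  norm_num at h7
  have h8 : Real.exp (-((n / s) ^ 2 / 8)) ≤ 256 * ((1 + (n / s) ^ 2) ^ 2)⁻¹ := by
    rw [← div_eq_mul_inv, le_div_iff₀ (by positivity)]
    linarith
  calc gauss σ z ≤ (s ^ 3)⁻¹ * (256 * ((1 + (n / s) ^ 2) ^ 2)⁻¹) :=
        h3.trans (mul_le_mul h5 (h6.trans h8) (Real.exp_pos _).le (by positivity))
    _ = 256 * s * ((s ^ 2 + n ^ 2) ^ 2)⁻¹ := by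
      have h9 : 1 + (n / s) ^ 2 = (s ^ 2 + n ^ 2) / s ^ 2 := by field_simp
      rw [h9]
      field_simp

theorem su_far {C : ℝ} (hC : 0 < C) (hAv : ∀ g : E3 → ℝ≥0∞, Measurable g → ∀ κ r : ℝ, 0 < κ →
      0 < r → r ^ 2 ≤ 2 * κ → ∀ B : ℝ≥0∞, (∀ z, ∫⁻ y in Metric.ball z r, g y ≤ B) → ∀ x,
      ∫⁻ y, ENNReal.ofReal (((κ + ‖x - y‖ ^ 2) ^ 2)⁻¹) * g y ≤
        ENNReal.ofReal (C / (r ^ 3 * √κ)) * B)
    {T N : ℝ} {f : ℝ → E3 → ℝ} (H : Hyp T N f) {t : ℝ} (ht : t ∈ Ioo 0 T) (x : E3) {κ : ℝ}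
    (hκ : 0 < κ) (h2 : t ≤ 2 * κ) :
    ∫⁻ s in Ioo 0 t, ∫⁻ y, ENNReal.ofReal (((κ + ‖x - y‖ ^ 2) ^ 2)⁻¹) * ‖f s y‖ₑ ≤
      ENNReal.ofReal (C * N / √κ) := by
  have hm : Measurable (fun p : ℝ × E3 => ‖f p.1 p.2‖ₑ) := H.meas.enorm
  have hr : 0 < √t := Real.sqrt_pos.2 ht.1
  have hk0 : 0 < √κ := Real.sqrt_pos.2 hκ
  have hk : Measurable (fun p : ℝ × E3 => ENNReal.ofReal (((κ + ‖x - p.2‖ ^ 2) ^ 2)⁻¹)) := by
    fun_prop
  rw [lintegral_lintegral_swap (hk.mul hm).aemeasurable]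
  have hg : Measurable fun y => ∫⁻ s in Ioo 0 t, ‖f s y‖ₑ := hm.lintegral_prod_left'
  have e1 : ∀ y, ∫⁻ s in Ioo 0 t, ENNReal.ofReal (((κ + ‖x - y‖ ^ 2) ^ 2)⁻¹) * ‖f s y‖ₑ =
      ENNReal.ofReal (((κ + ‖x - y‖ ^ 2) ^ 2)⁻¹) * ∫⁻ s in Ioo 0 t, ‖f s y‖ₑ := fun y =>
    lintegral_const_mul _ (hm.comp (measurable_id.prodMk measurable_const))
  simp only [e1]
  refine (hAv _ hg κ (√t) hκ hr (by rw [Real.sq_sqrt ht.1.le]; exact h2)
    (ENNReal.ofReal (N * √t ^ 3)) ?_ x).trans ?_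
  · intro z
    have e2 := lintegral_lintegral_swap (μ := (volume : Measure E3).restrict (Metric.ball z (√t)))
      (ν := volume.restrict (Ioo 0 t)) (f := fun y s => ‖f s y‖ₑ)
      (hm.comp measurable_swap).aemeasurable
    rw [e2]
    exact H.car t ht z
  · rw [← ENNReal.ofReal_mul (by positivity)]
    apply ENNReal.ofReal_le_ofReal
    apply le_of_eq
    field_simp

theorem su_near {T N : ℝ} {f : ℝ → E3 → ℝ} (H : Hyp T N f) {t : ℝ} (ht : t ∈ Ioo 0 T) {s : ℝ}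
    (hs : s ∈ Ioo 0 t) (hs2 : t / 2 ≤ s) (k : E3 → ℝ≥0∞) :
    ∫⁻ y, k y * ‖f s y‖ₑ ≤ (∫⁻ y, k y) * ENNReal.ofReal (2 * N / t) := by
  rw [← lintegral_mul_const' _ _ ENNReal.ofReal_ne_top]
  apply lintegral_mono_ae
  filter_upwards [H.sup s ⟨hs.1, hs.2.trans ht.2⟩] with y hy
  gcongr
  rw [← ofReal_norm]
  apply ENNReal.ofReal_le_ofReal
  rw [Real.norm_eq_abs, le_div_iff₀ ht.1]
  nlinarith [abs_nonneg (f s y)]

theorem su_ker {σ : ℝ} (hσ : 0 < σ) (x : E3) :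
    ∫⁻ y, ENNReal.ofReal (((σ + ‖x - y‖ ^ 2) ^ 2)⁻¹) = ENNReal.ofReal (JJ 4 / √σ) := by
  have hs := Real.sqrt_pos.2 hσ
  rw [lintegral_sub_left_eq_self (fun y : E3 => ENNReal.ofReal (((σ + ‖y‖ ^ 2) ^ 2)⁻¹)) x]
  simp only [← sg_sqrt_pow hσ]
  rw [← ofReal_integral_eq_lintegral_ofReal (integrable_sg hs (by norm_num))
    (Eventually.of_forall fun y => (pow_pos (sg_pos hs y) 4).le), integral_sg hs]
  congr 1
  field_simp

theorem su_kg {σ : ℝ} (hσ : 0 < σ) (x : E3) : ∫⁻ y, ENNReal.ofReal (gauss σ (x - y)) = 1 := by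
  rw [lintegral_sub_left_eq_self (fun y : E3 => ENNReal.ofReal (gauss σ y)) x]
  exact lintegral_hk hσ

theorem su_time {t : ℝ} (ht : 0 ≤ t) (c : ℝ) (hc : 0 ≤ c) :
    ∫⁻ s in Ioo 0 t, ENNReal.ofReal (c / √(t - s)) = ENNReal.ofReal (2 * c * √t) := by
  rw [← lint_inv_sqrt ht c hc, ← lintegral_indicator measurableSet_Ioo,
    ← lintegral_indicator measurableSet_Ioo,
    ← lintegral_sub_left_eq_self
      (fun τ => (Ioo 0 t).indicator (fun τ => ENNReal.ofReal (c / √τ)) τ) t]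
  congr 1
  ext s
  by_cases h : s ∈ Ioo 0 t
  · rw [indicator_of_mem h,
      indicator_of_mem (show t - s ∈ Ioo 0 t from ⟨by linarith [h.2], by linarith [h.1]⟩)]
  · rw [indicator_of_notMem h, indicator_of_notMem]
    intro h'
    exact h ⟨by linarith [h'.2], by linarith [h'.1]⟩

theorem stSu (hAv : StAv) : StSu := by
  obtain ⟨C, hC, hAv⟩ := hAv
  have hJ : 0 < JJ 4 := JJ_pos (by norm_num)
  refine ⟨258 * C + 4 * JJ 4 + 2, by positivity, fun T N f H t ht x => ⟨?_, ?_⟩⟩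
  · have ht0 := ht.1
    have hN := H.nn
    have hr : 0 < √t := Real.sqrt_pos.2 ht0
    have hsq : √t ^ 2 = t := Real.sq_sqrt ht0.le
    have hp : ∀ s ∈ Ioo 0 t,
        ∫⁻ y, ENNReal.ofReal (((t - s + ‖x - y‖ ^ 2) ^ 2)⁻¹) * ‖f s y‖ₑ ≤
        (∫⁻ y, ENNReal.ofReal (((t / 2 + ‖x - y‖ ^ 2) ^ 2)⁻¹) * ‖f s y‖ₑ) +
          ENNReal.ofReal (JJ 4 / √(t - s)) * ENNReal.ofReal (2 * N / t) := by
      intro s hs
      rcases le_or_gt (t / 2) s with h | h
      · refine le_trans ?_ le_add_self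
        rw [← su_ker (by linarith [hs.2] : 0 < t - s) x]
        exact su_near H ht hs h _
      · refine le_trans ?_ le_self_add
        refine lintegral_mono fun y => ?_
        have : t / 2 ≤ t - s := by linarith
        gcongr
    have h1 := su_far hC hAv H ht x (κ := t / 2) (by positivity) (by linarith)
    have h2 : ∫⁻ s in Ioo 0 t, ENNReal.ofReal (JJ 4 / √(t - s)) * ENNReal.ofReal (2 * N / t) =
        ENNReal.ofReal (4 * JJ 4 * N / √t) := by
      rw [lintegral_mul_const' _ _ ENNReal.ofReal_ne_top, su_time ht0.le _ hJ.le,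
        ← ENNReal.ofReal_mul (by positivity)]
      congr 1
      rw [← hsq]
      rw [Real.sqrt_sq hr.le]
      field_simp
      ring
    refine (setLIntegral_mono' measurableSet_Ioo hp).trans ?_
    rw [lintegral_add_right _ (by fun_prop), h2]
    refine (add_le_add_left h1 _).trans ?_
    rw [← ENNReal.ofReal_add (by positivity) (by positivity)]
    apply ENNReal.ofReal_le_ofReal
    have h3 : C * N / √(t / 2) ≤ 2 * C * N / √t := by
      have h4 : √t ≤ 2 * √(t / 2) := by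
        rw [Real.sqrt_le_left (by positivity), mul_pow, Real.sq_sqrt (by positivity)]
        linarith
      rw [div_le_div_iff₀ (by positivity) hr]
      have h5 : 0 ≤ C * N := by positivity
      nlinarith
    calc C * N / √(t / 2) + 4 * JJ 4 * N / √t ≤ 2 * C * N / √t + 4 * JJ 4 * N / √t := by linarith
      _ = (2 * C + 4 * JJ 4) * N / √t := by ring
      _ ≤ (258 * C + 4 * JJ 4 + 2) * N / √t := by
        refine div_le_div_of_nonneg_right (mul_le_mul_of_nonneg_right ?_ hN) hr.le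
        linarith
  · intro δ hδ
    have ht0 := ht.1
    have hN := H.nn
    have hκ : 0 < t / 2 + δ := by positivity
    have hp : ∀ s ∈ Ioo 0 t,
        ∫⁻ y, ENNReal.ofReal (gauss (t - s + δ) (x - y)) * ‖f s y‖ₑ ≤
        ENNReal.ofReal (256 * √(t / 2 + δ)) *
          (∫⁻ y, ENNReal.ofReal (((t / 2 + δ + ‖x - y‖ ^ 2) ^ 2)⁻¹) * ‖f s y‖ₑ) +
          ENNReal.ofReal (2 * N / t) := by
      intro s hs
      rcases le_or_gt (t / 2) s with h | h
      · refine le_trans ?_ le_add_self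
        have h1 := su_near H ht hs h (fun y => ENNReal.ofReal (gauss (t - s + δ) (x - y)))
        rwa [su_kg (by linarith [hs.2] : 0 < t - s + δ) x, one_mul] at h1
      · refine le_trans ?_ le_self_add
        rw [← lintegral_const_mul' _ _ ENNReal.ofReal_ne_top]
        refine lintegral_mono fun y => ?_
        rw [← mul_assoc, ← ENNReal.ofReal_mul (by positivity)]
        gcongr
        exact su_gauss hκ (by linarith) (by linarith [hs.1]) _
    have h1 := su_far hC hAv H ht x (κ := t / 2 + δ) hκ (by linarith)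
    refine (setLIntegral_mono' measurableSet_Ioo hp).trans ?_
    rw [lintegral_add_right _ measurable_const, lintegral_const_mul' _ _ ENNReal.ofReal_ne_top,
      lintegral_const, Measure.restrict_apply MeasurableSet.univ, univ_inter, Real.volume_Ioo,
      sub_zero, ← ENNReal.ofReal_mul (by positivity)]
    refine (add_le_add_left (mul_le_mul_right h1 _) _).trans ?_
    rw [← ENNReal.ofReal_mul (by positivity), ← ENNReal.ofReal_add (by positivity)
      (by positivity)]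
    apply ENNReal.ofReal_le_ofReal
    have hk0 : 0 < √(t / 2 + δ) := Real.sqrt_pos.2 hκ
    have e1 : 256 * √(t / 2 + δ) * (C * N / √(t / 2 + δ)) = 256 * C * N := by field_simp
    have e2 : 2 * N / t * t = 2 * N := by field_simp
    rw [e1, e2]
    nlinarith [mul_nonneg hC.le hN, mul_nonneg hJ.le hN]

end Pool.Agent.TF.K
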