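import Pool.Agent.TF.K.KT
import Pool.Agent.TF.K.Av
import Pool.Agent.TF.K.Su

/-!
# The bilinear estimate of Koch and Tataru: conclusion
-/

set_option autoImplicit false

namespace Pool.Agent.TF.K

theorem stKT : StKT := stKT_of (stSu stAv)

end Pool.Agent.TF.K
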