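import Pool.Agent.TF.M.OseeK

/-!
# The bilinear estimate of Koch and Tataru: the statements of the parts
-/

set_option autoImplicit false

namespace Pool.Agent.TF.K

open MeasureTheory Set Filter Topology Pool.Agent.TO Pool.Agent.TB Pool.Agent.TP
open scoped Real ENNReal

/-- (G2) the semigroup identity -/
def StG2 : Prop := ∀ a b : ℝ, 0 < a → 0 < b → ∀ y y' : E3,
  Integrable (fun x => gauss a (x - y) * gauss b (x - y')) (volume : Measure E3) ∧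
  ∫ x, gauss a (x - y) * gauss b (x - y') = gauss (a + b) (y - y')

/-- (G3) the gradients of the heat kernel -/
def StG3 : Prop := ∀ a b : ℝ, 0 < a → 0 < b → ∀ y y' : E3,
  (∀ k, Integrable (fun x => gauss1 a (x - y) k * gauss1 b (x - y') k) (volume : Measure E3)) ∧
  ∑ k, ∫ x, gauss1 a (x - y) k * gauss1 b (x - y') k = -GK.gaussT (a + b) (y - y')

/-- (AV) averaging over balls -/
def StAv : Prop := ∃ C : ℝ, 0 < C ∧ ∀ g : E3 → ℝ≥0∞, Measurable g → ∀ κ r : ℝ, 0 < κ → 0 < r →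
  r ^ 2 ≤ 2 * κ → ∀ B : ℝ≥0∞, (∀ z, ∫⁻ y in Metric.ball z r, g y ≤ B) → ∀ x,
  ∫⁻ y, ENNReal.ofReal (((κ + ‖x - y‖ ^ 2) ^ 2)⁻¹) * g y ≤ ENNReal.ofReal (C / (r ^ 3 * √κ)) * B

/-- the two bounds of a tensor in `X_T ⊗ X_T` (one component) -/
structure Hyp (T N : ℝ) (f : ℝ → E3 → ℝ) : Prop where
  meas : Measurable (Function.uncurry f)
  nn : 0 ≤ N
  sup : ∀ s ∈ Ioo 0 T, ∀ᵐ y ∂(volume : Measure E3), s * |f s y| ≤ N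
  car : ∀ t ∈ Ioo 0 T, ∀ x : E3, ∫⁻ s in Ioo 0 t, ∫⁻ y in Metric.ball x (√t), ‖f s y‖ₑ ≤
    ENNReal.ofReal (N * √t ^ 3)

/-- (SU) the pointwise bounds -/
def StSu : Prop := ∃ C : ℝ, 0 < C ∧ ∀ T N f, Hyp T N f → ∀ t ∈ Ioo 0 T, ∀ x : E3,
  ∫⁻ s in Ioo 0 t, ∫⁻ y, ENNReal.ofReal (((t - s + ‖x - y‖ ^ 2) ^ 2)⁻¹) * ‖f s y‖ₑ ≤
    ENNReal.ofReal (C * N / √t) ∧
  ∀ δ : ℝ, 0 ≤ δ → ∫⁻ s in Ioo 0 t, ∫⁻ y, ENNReal.ofReal (gauss (t - s + δ) (x - y)) * ‖f s y‖ₑ ≤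
    ENNReal.ofReal (C * N)

/-- one component of the bilinear operator, regularised -/
noncomputable def bo (δ : ℝ) (i j k : Fin 3) (f : ℝ → E3 → ℝ) (t : ℝ) (x : E3) : ℝ :=
  ∫ s in Ioo 0 t, ∫ y, oseen (t - s + δ) (x - y) i j k * f s y

/-- the corresponding derivative of the heat flow -/
noncomputable def bg (δ : ℝ) (k : Fin 3) (f : ℝ → E3 → ℝ) (t : ℝ) (x : E3) : ℝ :=
  ∫ s in Ioo 0 t, ∫ y, gauss1 (t - s + δ) (x - y) k * f s y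

/-- integrable on `(0, T) × ℝ³` -/
structure Lf (T L : ℝ) (f : ℝ → E3 → ℝ) : Prop where
  meas : Measurable (Function.uncurry f)
  nn : 0 ≤ L
  int : ∫⁻ s in Ioo 0 T, ∫⁻ y, ‖f s y‖ₑ ≤ ENNReal.ofReal L

/-- (A) the Leray projection is bounded in `L²` -/
def StA : Prop := ∀ (T L : ℝ) (f : ℝ → E3 → ℝ), Lf T L f → ∀ δ > 0, ∀ j k, ∀ t ∈ Ioo 0 T,
  ∑ i, ∫⁻ x, ‖bo δ i j k f t x‖ₑ ^ 2 ≤ ∫⁻ x, ‖bg δ k f t x‖ₑ ^ 2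

/-- (B) the energy of the heat flow -/
def StB : Prop := ∀ (T L M : ℝ) (f : ℝ → E3 → ℝ), Lf T L f → 0 ≤ M → ∀ δ > 0,
  (∀ t ∈ Ioo 0 T, ∀ x : E3, ∫⁻ s in Ioo 0 t, ∫⁻ y,
    ENNReal.ofReal (gauss (t - s + 2 * δ) (x - y)) * ‖f s y‖ₑ ≤ ENNReal.ofReal M) →
  ∀ k, ∫⁻ t in Ioo 0 T, ∫⁻ x, ‖bg δ k f t x‖ₑ ^ 2 ≤ ENNReal.ofReal (M * L)

/-- the bilinear estimate of Koch and Tataru -/
def StKT : Prop := ∃ C : ℝ, 0 < C ∧ ∀ T N f, Hyp T N f → ∀ i j k, ∀ t ∈ Ioo 0 T, ∀ x : E3,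
  ∫⁻ s in Ioo 0 t, ∫⁻ y, ‖oseen (t - s) (x - y) i j k‖ₑ * ‖f s y‖ₑ ≤
    ENNReal.ofReal (C * N / √t) ∧
  ∫⁻ s in Ioo 0 t, ∫⁻ y in Metric.ball x (√t), ‖bo 0 i j k f s y‖ₑ ^ 2 ≤
    ENNReal.ofReal ((C * N) ^ 2 * √t ^ 3)

end Pool.Agent.TF.K
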