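import Pool.Agent.TF.K.Def
import Pool.Agent.TF.M.Osee
import Pool.Agent.TC.Test
import Pool.Agent.TP.Pot

/-!
# The Leray projection is bounded in `L²` (statement (A)) (helper91)
-/

set_option autoImplicit false

namespace Pool.Agent.TF.K

open MeasureTheory Set Filter Topology Pool.Agent.TO Pool.Agent.TB Pool.Agent.TC Pool.Agent.TP
open scoped Real ENNReal InnerProductSpace SchwartzMap LineDeriv

namespace KA

/-- `(0, t) × ℝ³` -/
noncomputable def mu (t : ℝ) : Measure (ℝ × E3) :=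
  (volume.restrict (Ioo 0 t)).prod (volume : Measure E3)

instance (t : ℝ) : SFinite (mu t) := by
  unfold mu
  infer_instance

theorem ae_mu (t : ℝ) : ∀ᵐ p ∂(mu t), p.1 ∈ Ioo 0 t :=
  (Measure.quasiMeasurePreserving_fst (μ := volume.restrict (Ioo 0 t))
    (ν := (volume : Measure E3))).ae (ae_restrict_mem measurableSet_Ioo)

/-- kernels with a bounded and integrable majorant -/
structure KB (δ : ℝ) (k : ℝ → E3 → ℝ) (Φ : E3 → ℝ) (B : ℝ) : Prop where
  meas : Measurable fun p : ℝ × E3 => k p.1 p.2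
  le : ∀ σ, δ ≤ σ → ∀ z, |k σ z| ≤ Φ z
  mΦ : Measurable Φ
  iΦ : Integrable Φ (volume : Measure E3)
  bΦ : ∀ z, Φ z ≤ B

variable {δ : ℝ} {k : ℝ → E3 → ℝ} {Φ : E3 → ℝ} {B : ℝ} {f : ℝ → E3 → ℝ} {t : ℝ}

/-- the integral operator -/
noncomputable def VV (δ : ℝ) (k : ℝ → E3 → ℝ) (f : ℝ → E3 → ℝ) (t : ℝ) (x : E3) : ℝ :=
  ∫ p, k (t - p.1 + δ) (x - p.2) * f p.1 p.2 ∂(mu t)

theorem KB.nn (h : KB δ k Φ B) : 0 ≤ B :=
  ((abs_nonneg _).trans (h.le δ le_rfl 0)).trans (h.bΦ 0)

theorem KB.Φnn (h : KB δ k Φ B) (z : E3) : 0 ≤ Φ z := (abs_nonneg _).trans (h.le δ le_rfl z)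

theorem meas_joint (h : KB δ k Φ B) (hf : Measurable (Function.uncurry f)) :
    Measurable fun q : E3 × (ℝ × E3) => k (t - q.2.1 + δ) (q.1 - q.2.2) * f q.2.1 q.2.2 := by
  have h1 : Measurable fun q : E3 × (ℝ × E3) => (t - q.2.1 + δ, q.1 - q.2.2) :=
    ((measurable_const.sub (measurable_fst.comp measurable_snd)).add_const δ).prodMk
      (measurable_fst.sub (measurable_snd.comp measurable_snd))
  exact (h.meas.comp h1).mul (hf.comp measurable_snd)

theorem intg (h : KB δ k Φ B) (hf : Measurable (Function.uncurry f))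
    (hi : Integrable (Function.uncurry f) (mu t)) (x : E3) :
    Integrable (fun p => k (t - p.1 + δ) (x - p.2) * f p.1 p.2) (mu t) := by
  refine Integrable.mono' (hi.norm.const_mul B)
    (((meas_joint h hf).comp measurable_prodMk_left).aestronglyMeasurable) ?_
  filter_upwards [ae_mu t] with p hp
  rw [norm_mul, Real.norm_eq_abs]
  refine mul_le_mul_of_nonneg_right ?_ (norm_nonneg _)
  exact (h.le _ (by linarith [hp.2]) _).trans (h.bΦ _)

theorem intg_joint (h : KB δ k Φ B) (hf : Measurable (Function.uncurry f))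
    (hi : Integrable (Function.uncurry f) (mu t)) :
    Integrable (fun q : E3 × (ℝ × E3) => k (t - q.2.1 + δ) (q.1 - q.2.2) * f q.2.1 q.2.2)
      ((volume : Measure E3).prod (mu t)) := by
  rw [integrable_prod_iff' (meas_joint h hf).aestronglyMeasurable]
  have hΦs : ∀ y : E3, Integrable (fun x => Φ (x - y)) (volume : Measure E3) := fun y =>
    h.iΦ.comp_sub_right y
  have h1 : ∀ᵐ p ∂(mu t), Integrable (fun x : E3 => k (t - p.1 + δ) (x - p.2) * f p.1 p.2)
      (volume : Measure E3) := by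
    filter_upwards [ae_mu t] with p hp
    refine Integrable.mono' ((hΦs p.2).mul_const |f p.1 p.2|)
      (((meas_joint h hf).comp measurable_prodMk_right).aestronglyMeasurable)
      (Eventually.of_forall fun x => ?_)
    rw [norm_mul, Real.norm_eq_abs, Real.norm_eq_abs]
    exact mul_le_mul_of_nonneg_right (h.le _ (by linarith [hp.2]) _) (abs_nonneg _)
  refine ⟨h1, Integrable.mono' (hi.norm.const_mul (∫ z, Φ z)) ?_ ?_⟩
  · have m : StronglyMeasurable (Function.uncurry fun (p : ℝ × E3) (x : E3) =>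
        ‖k (t - p.1 + δ) (x - p.2) * f p.1 p.2‖) :=
      (((meas_joint h hf).comp measurable_swap).norm).stronglyMeasurable
    exact m.integral_prod_right.aestronglyMeasurable
  · filter_upwards [ae_mu t, h1] with p hp hp1
    rw [Real.norm_eq_abs, abs_of_nonneg (integral_nonneg fun x => norm_nonneg _)]
    calc ∫ x, ‖k (t - p.1 + δ) (x - p.2) * f p.1 p.2‖ ≤ ∫ x, Φ (x - p.2) * |f p.1 p.2| := by
          refine integral_mono hp1.norm ((hΦs p.2).mul_const _) fun x => ?_
          rw [norm_mul, Real.norm_eq_abs, Real.norm_eq_abs]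
          exact mul_le_mul_of_nonneg_right (h.le _ (by linarith [hp.2]) _) (abs_nonneg _)
      _ = (∫ z, Φ z) * ‖Function.uncurry f p‖ := by
          rw [integral_mul_const, integral_sub_right_eq_self (fun z => Φ z)]
          rfl

theorem meas_VV (h : KB δ k Φ B) (hf : Measurable (Function.uncurry f)) :
    StronglyMeasurable (VV δ k f t) := by
  have m : StronglyMeasurable (Function.uncurry fun (x : E3) (p : ℝ × E3) =>
      k (t - p.1 + δ) (x - p.2) * f p.1 p.2) := (meas_joint h hf).stronglyMeasurable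
  exact m.integral_prod_right

theorem int_VV (h : KB δ k Φ B) (hf : Measurable (Function.uncurry f))
    (hi : Integrable (Function.uncurry f) (mu t)) :
    Integrable (VV δ k f t) (volume : Measure E3) := (intg_joint h hf hi).integral_prod_left

theorem abs_VV (h : KB δ k Φ B) (hi : Integrable (Function.uncurry f) (mu t)) (x : E3) :
    |VV δ k f t x| ≤ B * ∫ p, ‖Function.uncurry f p‖ ∂(mu t) := by
  unfold VV
  rw [← Real.norm_eq_abs, ← integral_const_mul]
  refine norm_integral_le_of_norm_le (hi.norm.const_mul B) ?_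
  filter_upwards [ae_mu t] with p hp
  rw [norm_mul, Real.norm_eq_abs]
  refine mul_le_mul_of_nonneg_right ?_ (norm_nonneg _)
  exact (h.le _ (by linarith [hp.2]) _).trans (h.bΦ _)

theorem sq_VV (h : KB δ k Φ B) (hf : Measurable (Function.uncurry f))
    (hi : Integrable (Function.uncurry f) (mu t)) : MemLp (VV δ k f t) 2 (volume : Measure E3) := by
  rw [memLp_two_iff_integrable_sq_norm (meas_VV h hf).aestronglyMeasurable]
  refine Integrable.mono' ((int_VV h hf hi).norm.const_mul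
    (B * ∫ p, ‖Function.uncurry f p‖ ∂(mu t)))
    ((meas_VV h hf).aestronglyMeasurable.norm.pow 2) (Eventually.of_forall fun x => ?_)
  rw [norm_pow, norm_norm, sq]
  exact mul_le_mul_of_nonneg_right (abs_VV h hi x) (norm_nonneg _)

theorem fub (h : KB δ k Φ B) (hf : Measurable (Function.uncurry f))
    (hi : Integrable (Function.uncurry f) (mu t)) (η : 𝓢(E3, ℝ)) :
    ∫ x, η x * VV δ k f t x =
      ∫ p, (∫ x, η x * k (t - p.1 + δ) (x - p.2)) * f p.1 p.2 ∂(mu t) ∧
    Integrable (fun p => (∫ x, η x * k (t - p.1 + δ) (x - p.2)) * f p.1 p.2) (mu t) ∧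
    Integrable (fun x => η x * VV δ k f t x) (volume : Measure E3) := by
  obtain ⟨C, hC⟩ : ∃ C, ∀ x, ‖η x‖ ≤ C := ⟨_, fun x => η.norm_le_seminorm ℝ x⟩
  have h1 : Integrable (fun q : E3 × (ℝ × E3) => η q.1 *
      (k (t - q.2.1 + δ) (q.1 - q.2.2) * f q.2.1 q.2.2)) ((volume : Measure E3).prod (mu t)) := by
    refine (intg_joint h hf hi).bdd_mul (c := C) ?_ (Eventually.of_forall fun q => hC q.1)
    exact (η.continuous.comp continuous_fst).aestronglyMeasurable
  have e1 : ∀ p : ℝ × E3, (∫ x, η x * k (t - p.1 + δ) (x - p.2)) * f p.1 p.2 =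
      ∫ x, η x * (k (t - p.1 + δ) (x - p.2) * f p.1 p.2) := fun p => by
    rw [← integral_mul_const]
    simp only [mul_assoc]
  have e2 : ∀ x, η x * VV δ k f t x =
      ∫ p, η x * (k (t - p.1 + δ) (x - p.2) * f p.1 p.2) ∂(mu t) := fun x => by
    rw [integral_const_mul]
    rfl
  simp only [e1, e2]
  exact ⟨integral_integral_swap h1, h1.integral_prod_right, h1.integral_prod_left⟩

/-! ### the two kernels -/

/-- the majorant -/
noncomputable def Ph (δ : ℝ) (z : E3) : ℝ := CO * ((δ + ‖z‖ ^ 2) ^ 2)⁻¹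

theorem kb_of (hδ : 0 < δ) (hm : Measurable fun p : ℝ × E3 => k p.1 p.2)
    (hk : ∀ σ, 0 < σ → ∀ z, |k σ z| ≤ CO * ((σ + ‖z‖ ^ 2) ^ 2)⁻¹) :
    KB δ k (Ph δ) (CO * (δ ^ 2)⁻¹) where
  meas := hm
  le σ hσ z := by
    refine (hk σ (hδ.trans_le hσ) z).trans ?_
    have := CO_pos
    unfold Ph
    gcongr
  mΦ := by
    unfold Ph
    fun_prop
  iΦ := by
    have h1 := (integrable_sg (Real.sqrt_pos.2 hδ) (n := 4) le_rfl).const_mul CO
    refine h1.congr (Eventually.of_forall fun z => ?_)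
    simp only [sg_sqrt_pow hδ]
    rfl
  bΦ z := by
    have := CO_pos
    unfold Ph
    gcongr
    nlinarith [sq_nonneg ‖z‖]

theorem kb_oseen (hδ : 0 < δ) (i j l : Fin 3) :
    KB δ (fun σ z => oseen σ z i j l) (Ph δ) (CO * (δ ^ 2)⁻¹) :=
  kb_of hδ (measurable_oseen i j l) fun σ hσ z => abs_oseen_le hσ z i j l

theorem kb_gauss1 (hδ : 0 < δ) (l : Fin 3) :
    KB δ (fun σ z => gauss1 σ z l) (Ph δ) (CO * (δ ^ 2)⁻¹) :=
  kb_of hδ (measurable_gauss1 l) fun σ hσ z => (abs_gauss1_le hσ z l).trans (by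
    have : (1728 : ℝ) ≤ CO := by
      unfold CO
      norm_num
    gcongr)

theorem int_f {T L : ℝ} (hf : Lf T L f) (ht : t ∈ Ioo 0 T) :
    Integrable (Function.uncurry f) (mu t) := by
  refine ⟨hf.meas.aestronglyMeasurable, ?_⟩
  unfold HasFiniteIntegral mu
  rw [lintegral_prod _ (hf.meas.enorm.aemeasurable)]
  refine lt_of_le_of_lt ?_ (lt_of_le_of_lt hf.int ENNReal.ofReal_lt_top)
  exact lintegral_mono_set (Ioo_subset_Ioo_right ht.2.le)

theorem bo_eq (hδ : 0 < δ) (hf : Measurable (Function.uncurry f))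
    (hi : Integrable (Function.uncurry f) (mu t)) (i j l : Fin 3) :
    bo δ i j l f t = VV δ (fun σ z => oseen σ z i j l) f t := by
  funext x
  exact (integral_prod _ (intg (kb_oseen hδ i j l) hf hi x)).symm

theorem bg_eq (hδ : 0 < δ) (hf : Measurable (Function.uncurry f))
    (hi : Integrable (Function.uncurry f) (mu t)) (l : Fin 3) :
    bg δ l f t = VV δ (fun σ z => gauss1 σ z l) f t := by
  funext x
  exact (integral_prod _ (intg (kb_gauss1 hδ l) hf hi x)).symm

/-! ### the fields -/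

theorem memLp_field {u : Fin 3 → E3 → ℝ} (hu : ∀ i, MemLp (u i) 2 (volume : Measure E3)) :
    MemLp (fun x => (WithLp.toLp 2 fun i => u i x : E3)) 2 (volume : Measure E3) := by
  have e : (fun x => (WithLp.toLp 2 fun i => u i x : E3)) = fun x => ∑ i, u i x • (ee i : E3) := by
    funext x
    ext j
    simp [ee, Pi.single_apply]
  rw [e]
  refine memLp_finsetSum _ fun i _ => ?_
  exact (ContinuousLinearMap.toSpanSingleton ℝ (ee i : E3)).comp_memLp' (hu i)

theorem inner_field (φ : 𝓢(E3, E3)) {u : Fin 3 → E3 → ℝ}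
    (hu : ∀ i, MemLp (u i) 2 (volume : Measure E3))
    (hi : ∀ i, Integrable (fun x => φ x i * u i x) (volume : Measure E3)) :
    ⟪emb φ, (memLp_field hu).toLp⟫_ℝ = ∑ i, ∫ x, φ x i * u i x := by
  rw [emb_apply, ← integral_inner_eq, ← integral_finsetSum _ fun i _ => hi i]
  apply integral_congr_ae
  filter_upwards [(memLp_field hu).coeFn_toLp] with x hx
  rw [hx, PiLp.inner_apply]
  refine Finset.sum_congr rfl fun i _ => ?_
  change u i x * φ x i = _
  ring

theorem enorm_sq' {F : Type*} [NormedAddCommGroup F] (v : F) :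
    ‖v‖ₑ ^ 2 = ENNReal.ofReal (‖v‖ ^ 2) := by
  rw [← ofReal_norm, ← ENNReal.ofReal_pow (norm_nonneg _)]

theorem lint_field {u : Fin 3 → E3 → ℝ} (hu : ∀ i, MemLp (u i) 2 (volume : Measure E3)) :
    ∑ i, ∫⁻ x, ‖u i x‖ₑ ^ 2 = ∫⁻ x, ‖((memLp_field hu).toLp : V3) x‖ₑ ^ 2 := by
  have e : ∫⁻ x, ‖((memLp_field hu).toLp : V3) x‖ₑ ^ 2 = ∫⁻ x, ∑ i, ‖u i x‖ₑ ^ 2 := by
    apply lintegral_congr_ae
    filter_upwards [(memLp_field hu).coeFn_toLp] with x hx
    rw [hx, enorm_sq', EuclideanSpace.norm_sq_eq,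
      ENNReal.ofReal_sum_of_nonneg fun i _ => by positivity]
    refine Finset.sum_congr rfl fun i _ => ?_
    rw [← enorm_sq']
  rw [e, lintegral_finsetSum' _ fun i _ => ((hu i).1.enorm.pow_const 2)]

/-- the field with one component -/
noncomputable def sgk (j : Fin 3) (g : E3 → ℝ) (i : Fin 3) (x : E3) : ℝ := if i = j then g x else 0

theorem memLp_sgl {g : E3 → ℝ} (hg : MemLp g 2 (volume : Measure E3)) (j i : Fin 3) :
    MemLp (sgk j g i) 2 (volume : Measure E3) := by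
  unfold sgk
  split_ifs
  · exact hg
  · exact MemLp.zero'

section pair

variable (hδ : 0 < δ) (hf : Measurable (Function.uncurry f))
  (hi : Integrable (Function.uncurry f) (mu t)) (j l : Fin 3)

include hδ hf hi

theorem memLp_bo (i : Fin 3) : MemLp (bo δ i j l f t) 2 (volume : Measure E3) := by
  rw [bo_eq hδ hf hi]
  exact sq_VV (kb_oseen hδ i j l) hf hi

theorem memLp_bg : MemLp (bg δ l f t) 2 (volume : Measure E3) := by
  rw [bg_eq hδ hf hi]
  exact sq_VV (kb_gauss1 hδ l) hf hi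

/-- testing the field with a Schwartz field -/
theorem pair_bo (φ : 𝓢(E3, E3)) {h : ℝ × E3 → ℝ}
    (hh : ∀ p : ℝ × E3, 0 < t - p.1 + δ →
      ∑ i, ∫ x, φ x i * oseen (t - p.1 + δ) (x - p.2) i j l = h p) :
    ⟪emb φ, (memLp_field (memLp_bo hδ hf hi j l)).toLp⟫_ℝ = ∫ p, h p * f p.1 p.2 ∂(mu t) := by
  obtain ⟨η, h1, -⟩ := GK.exists_comp φ
  have hb := fun i => fub (kb_oseen hδ i j l) hf hi (η i)
  simp only [h1] at hb
  have e := fun i => bo_eq hδ hf hi i j l
  rw [inner_field φ (memLp_bo hδ hf hi j l) fun i => by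
    rw [e i]
    exact (hb i).2.2]
  have e1 : ∀ i, ∫ x, φ x i * bo δ i j l f t x =
      ∫ p, (∫ x, φ x i * oseen (t - p.1 + δ) (x - p.2) i j l) * f p.1 p.2 ∂(mu t) := fun i => by
    rw [e i]
    exact (hb i).1
  simp only [e1]
  rw [← integral_finsetSum _ fun i _ => (hb i).2.1]
  apply integral_congr_ae
  filter_upwards [ae_mu t] with p hp
  rw [← Finset.sum_mul, hh p (by linarith [hp.2])]

theorem pair_bg (φ : 𝓢(E3, E3)) :
    ⟪emb φ, (memLp_field (memLp_sgl (memLp_bg hδ hf hi l) j)).toLp⟫_ℝ =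
      ∫ p, (-(heat (t - p.1 + δ) (∂_{ee l} φ : 𝓢(E3, E3)) p.2) j) * f p.1 p.2 ∂(mu t) := by
  obtain ⟨η, h1, h2⟩ := GK.exists_comp φ
  have hb := fub (kb_gauss1 hδ l) hf hi (η j)
  have e := bg_eq hδ hf hi l
  have i0 : ∀ i, Integrable (fun x => φ x i * sgk j (bg δ l f t) i x) (volume : Measure E3) := by
    intro i
    unfold sgk
    split_ifs with hij
    · subst hij
      rw [e]
      simp only [← h1]
      exact hb.2.2
    · simp
  rw [inner_field φ (memLp_sgl (memLp_bg hδ hf hi l) j) i0]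
  have e1 : ∀ i, ∫ x, φ x i * sgk j (bg δ l f t) i x =
      if i = j then ∫ x, η j x * bg δ l f t x else 0 := by
    intro i
    unfold sgk
    split_ifs with hij
    · subst hij
      simp only [h1]
    · simp
  simp only [e1, Finset.sum_ite_eq', Finset.mem_univ, if_true]
  rw [e, hb.1]
  apply integral_congr_ae
  filter_upwards [ae_mu t] with p hp
  have hσ : 0 < t - p.1 + δ := by linarith [hp.2]
  rw [GK.int_gauss1 hσ, GK.heat_comp hσ]
  congr 2
  have e2 : ((∂_{ee l} (η j) : 𝓢(E3, ℝ)) : E3 → ℝ) = fun x => (∂_{ee l} φ) x j :=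
    funext fun x => h2 j l x
  rw [e2]

theorem div_bo : IsDivFree (memLp_field (memLp_bo hδ hf hi j l)).toLp := by
  rw [div_iff]
  intro φ
  rw [pair_bo hδ hf hi j l (gR φ) (h := fun _ => 0) fun p hp => ?_]
  · simp
  · simp only [gR_apply]
    exact oseenK_grad hp φ p.2 j l

theorem norm_bo_le : ‖(memLp_field (memLp_bo hδ hf hi j l)).toLp‖ ≤
    ‖(memLp_field (memLp_sgl (memLp_bg hδ hf hi l) j)).toLp‖ := by
  set U : V3 := (memLp_field (memLp_bo hδ hf hi j l)).toLp with hU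
  set G : V3 := (memLp_field (memLp_sgl (memLp_bg hδ hf hi l) j)).toLp with hG
  obtain ⟨ψ, h1, h2⟩ := adm_of_divFree (div_bo hδ hf hi j l)
  have e : ∀ n, ⟪emb (ψ n), U⟫_ℝ = ⟪emb (ψ n), G⟫_ℝ := fun n => by
    rw [hU, hG, pair_bo hδ hf hi j l (ψ n) (fun p hp => oseenK_vec hp (ψ n) (h1 n) p.2 j l),
      pair_bg hδ hf hi j l (ψ n)]
  have l1 : Tendsto (fun n => ⟪emb (ψ n), U⟫_ℝ) atTop (𝓝 ⟪U, U⟫_ℝ) := h2.inner tendsto_const_nhds
  have l2 : Tendsto (fun n => ⟪emb (ψ n), G⟫_ℝ) atTop (𝓝 ⟪U, G⟫_ℝ) := h2.inner tendsto_const_nhds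
  simp only [e] at l1
  have h3 : ⟪U, U⟫_ℝ = ⟪U, G⟫_ℝ := tendsto_nhds_unique l1 l2
  have h4 : ‖U‖ * ‖U‖ ≤ ‖U‖ * ‖G‖ := by
    rw [← real_inner_self_eq_norm_mul_norm, h3]
    exact real_inner_le_norm U G
  rcases (norm_nonneg U).eq_or_lt with h5 | h5
  · rw [← h5]
    exact norm_nonneg _
  · exact le_of_mul_le_mul_left h4 h5

end pair

end KA

open KA in
/-- (A) the Leray projection is bounded in `L²` -/
theorem stA : StA := by
  intro T L f hf δ hδ j k t ht
  have hi := int_f hf ht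
  have h1 := norm_bo_le hδ hf.meas hi j k
  rw [lint_field (memLp_bo hδ hf.meas hi j k)]
  have e : ∫⁻ x, ‖bg δ k f t x‖ₑ ^ 2 = ∑ i, ∫⁻ x, ‖sgk j (bg δ k f t) i x‖ₑ ^ 2 := by
    have e1 : ∀ i, ∫⁻ x, ‖sgk j (bg δ k f t) i x‖ₑ ^ 2 =
        if i = j then ∫⁻ x, ‖bg δ k f t x‖ₑ ^ 2 else 0 := by
      intro i
      unfold sgk
      split_ifs with hij
      · rfl
      · simp
    simp only [e1, Finset.sum_ite_eq', Finset.mem_univ, if_true]
  rw [e, lint_field (memLp_sgl (memLp_bg hδ hf.meas hi k) j), lintegral_sq_V3, lintegral_sq_V3]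
  gcongr
  rw [← ofReal_norm, ← ofReal_norm]
  exact ENNReal.ofReal_le_ofReal h1

end Pool.Agent.TF.K
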