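import Pool.Agent.TF.K.Sq
import Pool.Agent.TF.M.Osee

/-!
# The energy of the heat flow
-/

set_option autoImplicit false

namespace Pool.Agent.TF.K

open MeasureTheory Set Filter Topology Pool.Agent.TO Pool.Agent.TB Pool.Agent.TP
open scoped Real ENNReal

variable {T δ : ℝ}

/-- the measure on `(0, T) × ℝ³` -/
noncomputable abbrev mT (T : ℝ) : Measure (ℝ × E3) := (volume.restrict (Ioo 0 T)).prod volume

/-- the kernel -/
noncomputable def kg (δ : ℝ) (k : Fin 3) (x p : ℝ × E3) : ℝ :=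
  if p.1 < x.1 then gauss1 (x.1 - p.1 + δ) (x.2 - p.2) k else 0

theorem measurable_kg (k : Fin 3) : Measurable (Function.uncurry (kg δ k)) := by
  have h1 : Measurable fun q : (ℝ × E3) × (ℝ × E3) =>
      gauss1 (q.1.1 - q.2.1 + δ) (q.1.2 - q.2.2) k :=
    (measurable_gauss1 k).comp (f := fun q : (ℝ × E3) × (ℝ × E3) =>
      (q.1.1 - q.2.1 + δ, q.1.2 - q.2.2)) (by fun_prop)
  have h2 : MeasurableSet {q : (ℝ × E3) × (ℝ × E3) | q.2.1 < q.1.1} :=
    measurableSet_lt (by fun_prop) (by fun_prop)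
  exact Measurable.ite h2 h1 measurable_const

theorem kg_le (hδ : 0 < δ) (k : Fin 3) (x p : ℝ × E3) :
    |kg δ k x p| ≤ 1728 * sg (√δ) (x.2 - p.2) ^ 4 := by
  unfold kg
  split_ifs with h
  · refine (abs_gauss1_le (by linarith) _ k).trans ?_
    rw [sg_sqrt_pow hδ]
    gcongr
    linarith
  · rw [abs_zero]
    have := sg_pos (Real.sqrt_pos.2 hδ) (x.2 - p.2)
    positivity

theorem kg_le' (hδ : 0 < δ) (k : Fin 3) (x p : ℝ × E3) : |kg δ k x p| ≤ 1728 * (√δ)⁻¹ ^ 4 := by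
  refine (kg_le hδ k x p).trans ?_
  have h1 := sg_le_inv (Real.sqrt_pos.2 hδ) (x.2 - p.2)
  have h2 := (sg_pos (Real.sqrt_pos.2 hδ) (x.2 - p.2)).le
  gcongr

/-- the constant in the integrability -/
noncomputable def cK (T δ : ℝ) : ℝ≥0∞ :=
  ENNReal.ofReal T * (ENNReal.ofReal (1728 * (√δ)⁻¹ ^ 4) *
    ENNReal.ofReal (1728 * (√δ ^ 3 * (√δ)⁻¹ ^ 4 * JJ 4)))

theorem cK_lt (T δ : ℝ) : cK T δ < ∞ := by
  unfold cK
  exact ENNReal.mul_lt_top ENNReal.ofReal_lt_top
    (ENNReal.mul_lt_top ENNReal.ofReal_lt_top ENNReal.ofReal_lt_top)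

theorem lint_sg4 (hδ : 0 < δ) (y : E3) :
    ∫⁻ x, ENNReal.ofReal (1728 * sg (√δ) (x - y) ^ 4) =
      ENNReal.ofReal (1728 * (√δ ^ 3 * (√δ)⁻¹ ^ 4 * JJ 4)) := by
  have hs := Real.sqrt_pos.2 hδ
  rw [lintegral_sub_right_eq_self (fun x => ENNReal.ofReal (1728 * sg (√δ) x ^ 4)) y,
    ← ofReal_integral_eq_lintegral_ofReal ((integrable_sg hs le_rfl).const_mul 1728)
      (Eventually.of_forall fun x => ?_), integral_const_mul, integral_sg hs]
  have := sg_pos hs x
  positivity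

theorem kg_bound (hδ : 0 < δ) (k : Fin 3) (p p' : ℝ × E3) :
    ∫⁻ x, ‖kg δ k x p‖ₑ * ‖kg δ k x p'‖ₑ ∂(mT T) ≤ cK T δ := by
  have hs := Real.sqrt_pos.2 hδ
  have e : ∀ x q, ‖kg δ k x q‖ₑ = ENNReal.ofReal |kg δ k x q| := fun x q => by
    rw [← Real.norm_eq_abs, ofReal_norm]
  calc ∫⁻ x, ‖kg δ k x p‖ₑ * ‖kg δ k x p'‖ₑ ∂(mT T)
      ≤ ∫⁻ x, ENNReal.ofReal (1728 * (√δ)⁻¹ ^ 4) *
          ENNReal.ofReal (1728 * sg (√δ) (x.2 - p'.2) ^ 4) ∂(mT T) := by
        apply lintegral_mono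
        intro x
        simp only [e]
        gcongr
        · exact kg_le' hδ k x p
        · exact kg_le hδ k x p'
    _ ≤ cK T δ := by
        have hm : Measurable fun x : ℝ × E3 =>
            ENNReal.ofReal (1728 * sg (√δ) (x.2 - p'.2) ^ 4) :=
          (((continuous_sg hs).comp (continuous_snd.sub continuous_const)).pow 4).measurable.const_mul
            _ |>.ennreal_ofReal
        rw [lintegral_const_mul _ hm, lintegral_prod _ hm.aemeasurable]
        simp only [lint_sg4 hδ, lintegral_const, Measure.restrict_apply MeasurableSet.univ,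
          univ_inter, Real.volume_Ioo, sub_zero]
        exact le_of_eq (by unfold cK; ring)

/-- `f` as a function on `(0, T) × ℝ³` -/
theorem Lf.integrable {L : ℝ} {f : ℝ → E3 → ℝ} (h : Lf T L f) :
    Integrable (Function.uncurry f) (mT T) := by
  refine ⟨h.meas.aestronglyMeasurable, ?_⟩
  rw [HasFiniteIntegral, lintegral_prod _ h.meas.enorm.aemeasurable]
  exact h.int.trans_lt ENNReal.ofReal_lt_top

theorem kg_int (hδ : 0 < δ) (k : Fin 3) {F : ℝ × E3 → ℝ} (hF : Integrable F (mT T)) (x : ℝ × E3) :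
    Integrable (fun p => kg δ k x p * F p) (mT T) := by
  refine hF.bdd_mul (c := 1728 * (√δ)⁻¹ ^ 4)
    ((measurable_kg k).comp (measurable_const.prodMk measurable_id)).aestronglyMeasurable ?_
  exact Eventually.of_forall fun p => kg_le' hδ k x p

theorem bg_eq (hδ : 0 < δ) (k : Fin 3) {L : ℝ} {f : ℝ → E3 → ℝ} (h : Lf T L f) {t : ℝ}
    (ht : t ∈ Ioo 0 T) (x : E3) :
    bg δ k f t x = ∫ p, kg δ k (t, x) p * Function.uncurry f p ∂(mT T) := by
  rw [integral_prod _ (kg_int hδ k h.integrable (t, x))]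
  unfold bg
  have e1 : ∀ s : ℝ, ∫ y, kg δ k (t, x) (s, y) * Function.uncurry f (s, y) =
      (Iio t).indicator (fun s => ∫ y, gauss1 (t - s + δ) (x - y) k * f s y) s := by
    intro s
    unfold kg
    by_cases hs : s < t
    · rw [indicator_of_mem (show s ∈ Iio t from hs)]
      simp only [if_pos hs, Function.uncurry]
    · rw [indicator_of_notMem (show s ∉ Iio t from hs)]
      simp only [if_neg hs, zero_mul, integral_zero]
  simp only [e1]
  rw [setIntegral_indicator measurableSet_Iio]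
  congr 2
  ext s
  simp only [mem_Ioo, mem_inter_iff, mem_Iio]
  exact ⟨fun hs => ⟨⟨hs.1, hs.2.trans ht.2⟩, hs.2⟩, fun hs => ⟨hs.1.1, hs.2⟩⟩

end Pool.Agent.TF.K
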