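import Pool.Agent.TF.K.B

/-!
# The energy of the heat flow: the correlation of the kernels
-/

set_option autoImplicit false

namespace Pool.Agent.TF.K

open MeasureTheory Set Filter Topology Pool.Agent.TO Pool.Agent.TB Pool.Agent.TP
open scoped Real ENNReal

variable {T δ : ℝ}

theorem kk_int (hδ : 0 < δ) (k : Fin 3) (p p' : ℝ × E3) :
    Integrable (fun x => kg δ k x p * kg δ k x p') (mT T) := by
  have hm : ∀ q, Measurable fun x => kg δ k x q := fun q =>
    (measurable_kg k).comp (measurable_id.prodMk measurable_const)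
  refine ⟨((hm p).mul (hm p')).aestronglyMeasurable, ?_⟩
  rw [HasFiniteIntegral]
  simp only [enorm_mul]
  exact (kg_bound hδ k p p').trans_lt (cK_lt T δ)

theorem der_gauss {c t : ℝ} (h : 0 < 2 * t - c) (z : E3) :
    HasDerivAt (fun t => -(1 / 2) * gauss (2 * t - c) z) (-GK.gaussT (2 * t - c) z) t := by
  have h1 : HasDerivAt (fun t : ℝ => 2 * t - c) 2 t := by
    simpa using ((hasDerivAt_id t).const_mul (2:ℝ)).sub_const c
  have h2 := (GK.hasDerivAt_gauss h z).comp t h1
  have h3 := h2.const_mul (-(1 / 2) : ℝ)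
  refine h3.congr_deriv ?_
  ring

theorem int_gaussT {c m : ℝ} (h : 0 < 2 * m - c) (hm : m ≤ T) (z : E3) :
    ∫ t in Ioo m T, -GK.gaussT (2 * t - c) z =
      1 / 2 * (gauss (2 * m - c) z - gauss (2 * T - c) z) := by
  rw [← integral_Ioc_eq_integral_Ioo, ← intervalIntegral.integral_of_le hm]
  rw [intervalIntegral.integral_eq_sub_of_hasDerivAt (f := fun t => -(1 / 2) * gauss (2 * t - c) z)]
  · ring
  · intro t ht
    rw [uIcc_of_le hm] at ht
    exact der_gauss (by linarith [ht.1]) z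
  · rw [intervalIntegrable_iff_integrableOn_Ioc_of_le hm]
    have hms : Measurable fun t : ℝ => -GK.gaussT (2 * t - c) z :=
      (GK.measurable_gaussT.comp (f := fun t : ℝ => (2 * t - c, z)) (by fun_prop)).neg
    refine Integrable.of_bound hms.aestronglyMeasurable
      (3 * ((2 * m - c) ^ (-(3 / 2) : ℝ) * (2 / (2 * m - c)))) ?_
    filter_upwards [ae_restrict_mem measurableSet_Ioc] with t ht
    have h1 : 2 * m - c ≤ 2 * t - c := by linarith [ht.1]
    rw [norm_neg, Real.norm_eq_abs]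
    refine (GK.abs_gaussT_le (h.trans_le h1) z).trans ?_
    have h2 : (2 * t - c) ^ (-(3 / 2) : ℝ) ≤ (2 * m - c) ^ (-(3 / 2) : ℝ) :=
      Real.rpow_le_rpow_of_nonpos h h1 (by norm_num)
    have h3 : 0 ≤ (2 * t - c) ^ (-(3 / 2) : ℝ) := Real.rpow_nonneg (h.le.trans h1) _
    have h4 : 0 ≤ 2 / (2 * t - c) := div_nonneg (by norm_num) (h.le.trans h1)
    gcongr

theorem corr (hG : StG3) (hδ : 0 < δ) {p p' : ℝ × E3} (hp : p.1 < T)
    (hp' : p'.1 < T) (h0 : 0 < p.1) :
    ∑ k, ∫ x, kg δ k x p * kg δ k x p' ∂(mT T) =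
      1 / 2 * (gauss (|p.1 - p'.1| + 2 * δ) (p.2 - p'.2) -
        gauss (2 * T - p.1 - p'.1 + 2 * δ) (p.2 - p'.2)) := by
  set m := max p.1 p'.1 with hm
  have hmT : m < T := max_lt hp hp'
  have hm0 : 0 < m := h0.trans_le (le_max_left _ _)
  have hc : 2 * m - (p.1 + p'.1 - 2 * δ) = |p.1 - p'.1| + 2 * δ := by
    rcases le_total p.1 p'.1 with h | h
    · rw [hm, max_eq_right h, abs_of_nonpos (by linarith)]
      ring
    · rw [hm, max_eq_left h, abs_of_nonneg (by linarith)]
      ring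
  have e1 : ∀ k, ∫ x, kg δ k x p * kg δ k x p' ∂(mT T) =
      ∫ t in Ioo 0 T, ∫ x, kg δ k (t, x) p * kg δ k (t, x) p' := fun k =>
    integral_prod _ (kk_int hδ k p p')
  have e2 : ∀ t : ℝ, ∑ k, ∫ x, kg δ k (t, x) p * kg δ k (t, x) p' =
      (Ioi m).indicator (fun t => -GK.gaussT (2 * t - (p.1 + p'.1 - 2 * δ)) (p.2 - p'.2)) t := by
    intro t
    unfold kg
    by_cases ht : m < t
    · have h1 : p.1 < t := (le_max_left _ _).trans_lt ht
      have h2 : p'.1 < t := (le_max_right _ _).trans_lt ht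
      rw [indicator_of_mem (show t ∈ Ioi m from ht)]
      simp only [if_pos h1, if_pos h2]
      rw [(hG (t - p.1 + δ) (t - p'.1 + δ) (by linarith) (by linarith) p.2 p'.2).2]
      congr 2
      ring
    · rw [indicator_of_notMem (show t ∉ Ioi m from ht)]
      have h3 : ¬ p.1 < t ∨ ¬ p'.1 < t := by
        by_contra hcon
        push Not at hcon
        exact ht (max_lt hcon.1 hcon.2)
      rcases h3 with h3 | h3
      · simp only [if_neg h3, zero_mul, integral_zero, Finset.sum_const_zero]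
      · simp only [if_neg h3, mul_zero, integral_zero, Finset.sum_const_zero]
  simp only [e1]
  rw [← integral_finsetSum _ fun k _ => (kk_int hδ k p p').integral_prod_left]
  simp only [e2]
  rw [setIntegral_indicator measurableSet_Ioi]
  have e3 : Ioo 0 T ∩ Ioi m = Ioo m T := by
    ext s
    simp only [mem_Ioo, mem_inter_iff, mem_Ioi]
    exact ⟨fun hs => ⟨hs.2, hs.1.2⟩, fun hs => ⟨⟨hm0.trans hs.1, hs.2⟩, hs.1⟩⟩
  rw [e3, int_gaussT (by rw [hc]; positivity) hmT.le, hc]
  congr 3
  ring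

end Pool.Agent.TF.K
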