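import Pool.Agent.TF.K.B2

/-!
# The energy of the heat flow: the estimate
-/

set_option autoImplicit false

namespace Pool.Agent.TF.K

open MeasureTheory Set Filter Topology Pool.Agent.TO Pool.Agent.TB Pool.Agent.TP
open scoped Real ENNReal

variable {T δ L M : ℝ} {f : ℝ → E3 → ℝ}

theorem gauss_le' {σ : ℝ} (hδ : 0 < δ) (h : δ ≤ σ) (z : E3) :
    |gauss σ z| ≤ δ ^ (-(3 / 2) : ℝ) := by
  rw [abs_of_nonneg (GK.gauss_nonneg (hδ.trans_le h) z)]
  exact (GK.gauss_le (hδ.trans_le h) z).trans (Real.rpow_le_rpow_of_nonpos hδ h (by norm_num))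

/-- the final kernel -/
noncomputable def kb (T δ : ℝ) (x : E3) (p : ℝ × E3) : ℝ :=
  if p.1 < T then gauss (T - p.1 + δ) (x - p.2) else 0

theorem measurable_kb : Measurable (Function.uncurry (kb T δ)) := by
  have h1 : Measurable fun q : E3 × (ℝ × E3) => gauss (T - q.2.1 + δ) (q.1 - q.2.2) :=
    GK.measurable_gauss.comp (f := fun q : E3 × (ℝ × E3) => (T - q.2.1 + δ, q.1 - q.2.2))
      (by fun_prop)
  have h2 : MeasurableSet {q : E3 × (ℝ × E3) | q.2.1 < T} :=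
    measurableSet_lt (by fun_prop) (by fun_prop)
  exact Measurable.ite h2 h1 measurable_const

theorem kb_le (hδ : 0 < δ) (x : E3) (p : ℝ × E3) : |kb T δ x p| ≤ δ ^ (-(3 / 2) : ℝ) := by
  unfold kb
  split_ifs with h
  · exact gauss_le' hδ (by linarith) _
  · rw [abs_zero]
    positivity

theorem kb_bound (hδ : 0 < δ) (p p' : ℝ × E3) :
    ∫⁻ x, ‖kb T δ x p‖ₑ * ‖kb T δ x p'‖ₑ ≤ ENNReal.ofReal (δ ^ (-(3 / 2) : ℝ)) := by
  have e : ∀ x q, ‖kb T δ x q‖ₑ = ENNReal.ofReal |kb T δ x q| := fun x q => by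
    rw [← Real.norm_eq_abs, ofReal_norm]
  have hm : Measurable fun x => ‖kb T δ x p'‖ₑ :=
    (measurable_kb.comp (measurable_id.prodMk measurable_const)).enorm
  calc ∫⁻ x, ‖kb T δ x p‖ₑ * ‖kb T δ x p'‖ₑ
      ≤ ∫⁻ x, ENNReal.ofReal (δ ^ (-(3 / 2) : ℝ)) * ‖kb T δ x p'‖ₑ := by
        apply lintegral_mono
        intro x
        simp only [e x p]
        gcongr
        exact kb_le hδ x p
    _ = ENNReal.ofReal (δ ^ (-(3 / 2) : ℝ)) * ∫⁻ x, ‖kb T δ x p'‖ₑ := lintegral_const_mul _ hm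
    _ ≤ ENNReal.ofReal (δ ^ (-(3 / 2) : ℝ)) * 1 := by
        gcongr
        unfold kb
        split_ifs with h
        · have h1 : 0 < T - p'.1 + δ := by linarith
          rw [lintegral_sub_right_eq_self (fun x => ‖gauss (T - p'.1 + δ) x‖ₑ) p'.2]
          have h2 := lintegral_hk h1
          rw [← h2]
          apply lintegral_mono
          intro x
          change ‖hk _ x‖ₑ ≤ _
          rw [← ofReal_norm, Real.norm_of_nonneg (hk_pos h1 x).le]
        · simp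
    _ = _ := mul_one _

theorem ae_mT : ∀ᵐ p ∂(mT T), p.1 ∈ Ioo 0 T :=
  Measure.quasiMeasurePreserving_fst.ae (ae_restrict_mem measurableSet_Ioo)

theorem ae_fst : ∀ᵐ r ∂((mT T).prod (mT T)), r.1.1 ∈ Ioo 0 T :=
  Measure.quasiMeasurePreserving_fst.ae ae_mT

theorem ae_snd : ∀ᵐ r ∂((mT T).prod (mT T)), r.2.1 ∈ Ioo 0 T :=
  Measure.quasiMeasurePreserving_snd.ae ae_mT

/-- the final energy is nonnegative -/
theorem final_nonneg (hG : StG2) (hδ : 0 < δ) (hf : Lf T L f) :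
    0 ≤ ∫ r : (ℝ × E3) × (ℝ × E3), Function.uncurry f r.1 * Function.uncurry f r.2 *
      gauss (2 * T - r.1.1 - r.2.1 + 2 * δ) (r.1.2 - r.2.2) ∂((mT T).prod (mT T)) := by
  have h1 := (sq_int (ξ := (volume : Measure E3)) (measurable_kb (T := T) (δ := δ)) hf.meas
    hf.integrable ENNReal.ofReal_lt_top (kb_bound hδ)).2.2
  have h2 : ∫ r : (ℝ × E3) × (ℝ × E3), Function.uncurry f r.1 * Function.uncurry f r.2 *
      gauss (2 * T - r.1.1 - r.2.1 + 2 * δ) (r.1.2 - r.2.2) ∂((mT T).prod (mT T)) =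
      ∫ r : (ℝ × E3) × (ℝ × E3), Function.uncurry f r.1 * Function.uncurry f r.2 *
      (∫ x, kb T δ x r.1 * kb T δ x r.2) ∂((mT T).prod (mT T)) := by
    apply integral_congr_ae
    filter_upwards [ae_fst, ae_snd] with r hr hr'
    unfold kb
    simp only [if_pos hr.2, if_pos hr'.2]
    rw [(hG (T - r.1.1 + δ) (T - r.2.1 + δ) (by linarith [hr.2]) (by linarith [hr'.2]) _ _).2]
    congr 2
    ring
  rw [h2, ← h1]
  exact integral_nonneg fun x => sq_nonneg _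

/-- the inner integral -/
theorem inner_le (hbd : ∀ t ∈ Ioo 0 T, ∀ x : E3, ∫⁻ s in Ioo 0 t, ∫⁻ y,
    ENNReal.ofReal (gauss (t - s + 2 * δ) (x - y)) * ‖f s y‖ₑ ≤ ENNReal.ofReal M)
    (hf : Lf T L f) {p : ℝ × E3} (hp : p.1 ∈ Ioo 0 T) :
    ∫⁻ q, (if q.1 ≤ p.1 then ENNReal.ofReal (gauss (|p.1 - q.1| + 2 * δ) (p.2 - q.2)) *
      ‖Function.uncurry f q‖ₑ else 0) ∂(mT T) ≤ ENNReal.ofReal M := by
  have hm : Measurable fun q : ℝ × E3 =>
      (if q.1 ≤ p.1 then ENNReal.ofReal (gauss (|p.1 - q.1| + 2 * δ) (p.2 - q.2)) *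
      ‖Function.uncurry f q‖ₑ else 0) := by
    have h1 : Measurable fun q : ℝ × E3 => gauss (|p.1 - q.1| + 2 * δ) (p.2 - q.2) :=
      GK.measurable_gauss.comp (f := fun q : ℝ × E3 => (|p.1 - q.1| + 2 * δ, p.2 - q.2))
        (by fun_prop)
    refine Measurable.ite (measurableSet_le (by fun_prop) (by fun_prop)) ?_ measurable_const
    exact h1.ennreal_ofReal.mul hf.meas.enorm
  rw [lintegral_prod _ hm.aemeasurable]
  have e1 : ∀ s : ℝ, ∫⁻ y, (if (s, y).1 ≤ p.1 then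
      ENNReal.ofReal (gauss (|p.1 - (s, y).1| + 2 * δ) (p.2 - (s, y).2)) *
      ‖Function.uncurry f (s, y)‖ₑ else 0) =
      (Iic p.1).indicator (fun s => ∫⁻ y, ENNReal.ofReal (gauss (|p.1 - s| + 2 * δ) (p.2 - y)) *
        ‖f s y‖ₑ) s := by
    intro s
    by_cases hs : s ≤ p.1
    · rw [indicator_of_mem (show s ∈ Iic p.1 from hs)]
      simp only [if_pos hs, Function.uncurry]
    · rw [indicator_of_notMem (show s ∉ Iic p.1 from hs)]
      simp only [if_neg hs, lintegral_zero]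
  simp only [e1]
  rw [setLIntegral_indicator measurableSet_Iic]
  have e3 : Iic p.1 ∩ Ioo 0 T = Ioc 0 p.1 := by
    ext s
    simp only [mem_Ioo, mem_inter_iff, mem_Iic, mem_Ioc]
    exact ⟨fun hs => ⟨hs.2.1, hs.1⟩, fun hs => ⟨hs.2, hs.1, hs.2.trans_lt hp.2⟩⟩
  rw [e3, setLIntegral_congr Ioo_ae_eq_Ioc.symm]
  refine (setLIntegral_congr_fun measurableSet_Ioo fun s hs => ?_).trans_le (hbd p.1 hp p.2)
  rw [abs_of_nonneg (by linarith [hs.2])]

end Pool.Agent.TF.K
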