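import Pool.Agent.TF.K.Def

/-!
# Gaussian identities
-/

set_option autoImplicit false

namespace Pool.Agent.TF.K

open MeasureTheory Set Filter Topology Pool.Agent.TO Pool.Agent.TB Pool.Agent.TP
open scoped Real ENNReal InnerProductSpace

theorem gk_nonneg {s : ℝ} (hs : 0 < s) (w : E3) : 0 ≤ gauss s w := GK.gauss_nonneg hs w

theorem gk_integral {s : ℝ} (hs : 0 < s) : ∫ w, gauss s w = 1 := integral_hk hs

theorem gk_integrable {s : ℝ} (hs : 0 < s) : Integrable (gauss s) (volume : Measure E3) :=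
  integrable_hk hs

theorem gk_cont (s : ℝ) : Continuous (gauss s) := continuous_hk s

theorem gk_neg (s : ℝ) (w : E3) : gauss s (-w) = gauss s w := hk_neg s w

theorem gk_sq_le {s : ℝ} (hs : 0 < s) (w : E3) :
    gauss s w * ‖w‖ ^ 2 ≤ 24 * s * gauss (2 * s) w := by
  have hp := Real.pi_pos
  have e1 : (4 * π * s) ^ (-(3 / 2) : ℝ) ≤ 3 * (4 * π * (2 * s)) ^ (-(3 / 2) : ℝ) := by
    have : 4 * π * (2 * s) = 2 * (4 * π * s) := by ring
    rw [this, Real.mul_rpow (x := 2) (y := 4 * π * s) (by norm_num) (by positivity), ← mul_assoc]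
    have h2 : (1:ℝ) ≤ 3 * 2 ^ (-(3 / 2) : ℝ) := by
      rw [Real.rpow_neg (by norm_num)]
      have h3 : (2:ℝ) ^ (3 / 2 : ℝ) ≤ 3 := by
        have h4 : ((2:ℝ) ^ (3 / 2 : ℝ)) ^ 2 = 8 := by
          rw [← Real.rpow_natCast, ← Real.rpow_mul (by norm_num)]
          norm_num
        nlinarith [Real.rpow_nonneg (by norm_num : (0:ℝ) ≤ 2) (3 / 2 : ℝ)]
      rw [← div_eq_mul_inv, le_div_iff₀ (by positivity)]
      linarith
    calc (4 * π * s) ^ (-(3 / 2) : ℝ) = 1 * (4 * π * s) ^ (-(3 / 2) : ℝ) := (one_mul _).symm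
      _ ≤ _ := by gcongr
  have e2 : Real.exp (-‖w‖ ^ 2 / (4 * s)) * ‖w‖ ^ 2 ≤
      8 * s * Real.exp (-‖w‖ ^ 2 / (4 * (2 * s))) := by
    have h1 : -‖w‖ ^ 2 / (4 * s) = -‖w‖ ^ 2 / (4 * (2 * s)) + -(‖w‖ ^ 2 / (8 * s)) := by
      field_simp
      ring
    rw [h1, Real.exp_add]
    have h2 : ‖w‖ ^ 2 / (8 * s) ≤ Real.exp (‖w‖ ^ 2 / (8 * s)) := by
      have := Real.add_one_le_exp (‖w‖ ^ 2 / (8 * s))
      linarith
    have h3 : Real.exp (-(‖w‖ ^ 2 / (8 * s))) * ‖w‖ ^ 2 ≤ 8 * s := by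
      rw [Real.exp_neg, inv_mul_le_iff₀ (Real.exp_pos _)]
      rw [div_le_iff₀ (by positivity)] at h2
      linarith
    calc Real.exp (-‖w‖ ^ 2 / (4 * (2 * s))) * Real.exp (-(‖w‖ ^ 2 / (8 * s))) * ‖w‖ ^ 2
        = Real.exp (-‖w‖ ^ 2 / (4 * (2 * s))) * (Real.exp (-(‖w‖ ^ 2 / (8 * s))) * ‖w‖ ^ 2) := by
          ring
      _ ≤ Real.exp (-‖w‖ ^ 2 / (4 * (2 * s))) * (8 * s) := by gcongr
      _ = 8 * s * Real.exp (-‖w‖ ^ 2 / (4 * (2 * s))) := by ring
  unfold gauss
  calc (4 * π * s) ^ (-(3 / 2) : ℝ) * Real.exp (-‖w‖ ^ 2 / (4 * s)) * ‖w‖ ^ 2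
      = (4 * π * s) ^ (-(3 / 2) : ℝ) * (Real.exp (-‖w‖ ^ 2 / (4 * s)) * ‖w‖ ^ 2) := by ring
    _ ≤ (3 * (4 * π * (2 * s)) ^ (-(3 / 2) : ℝ)) *
        (8 * s * Real.exp (-‖w‖ ^ 2 / (4 * (2 * s)))) := by
        apply mul_le_mul e1 e2 (by positivity) (by positivity)
    _ = _ := by ring

theorem gk_coord_cont (k : Fin 3) : Continuous fun w : E3 => w k :=
  (EuclideanSpace.proj (𝕜 := ℝ) k : E3 →L[ℝ] ℝ).continuous

theorem gk_int_sq {s : ℝ} (hs : 0 < s) :
    Integrable (fun w : E3 => gauss s w * ‖w‖ ^ 2) (volume : Measure E3) := by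
  refine Integrable.mono' ((gk_integrable (s := 2 * s) (by linarith)).const_mul (24 * s))
    ((gk_cont s).mul (continuous_norm.pow 2)).aestronglyMeasurable
    (Eventually.of_forall fun w => ?_)
  rw [Real.norm_eq_abs, abs_of_nonneg (mul_nonneg (gk_nonneg hs w) (by positivity))]
  exact gk_sq_le hs w

theorem gk_coord_sq_le (w : E3) (k : Fin 3) : w k ^ 2 ≤ ‖w‖ ^ 2 := by
  rw [← sq_abs (w k)]
  exact pow_le_pow_left₀ (abs_nonneg _) (GK.abs_coord_le w k) 2

theorem gk_int_coord_sq {s : ℝ} (hs : 0 < s) (k : Fin 3) :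
    Integrable (fun w : E3 => w k ^ 2 * gauss s w) (volume : Measure E3) := by
  refine Integrable.mono' (gk_int_sq hs)
    (((gk_coord_cont k).pow 2).mul (gk_cont s)).aestronglyMeasurable
    (Eventually.of_forall fun w => ?_)
  rw [Real.norm_eq_abs, abs_of_nonneg (mul_nonneg (sq_nonneg _) (gk_nonneg hs w)), mul_comm]
  exact mul_le_mul_of_nonneg_left (gk_coord_sq_le w k) (gk_nonneg hs w)

theorem gk_int_coord {s : ℝ} (hs : 0 < s) (k : Fin 3) :
    Integrable (fun w : E3 => w k * gauss s w) (volume : Measure E3) := by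
  refine Integrable.mono' ((gk_int_sq hs).add (gk_integrable hs))
    ((gk_coord_cont k).mul (gk_cont s)).aestronglyMeasurable
    (Eventually.of_forall fun w => ?_)
  rw [Real.norm_eq_abs, abs_mul, abs_of_nonneg (gk_nonneg hs w)]
  have h1 : |w k| ≤ ‖w‖ ^ 2 + 1 := by
    have := GK.abs_coord_le w k
    nlinarith [sq_nonneg (‖w‖ - 1), norm_nonneg w]
  calc |w k| * gauss s w ≤ (‖w‖ ^ 2 + 1) * gauss s w :=
        mul_le_mul_of_nonneg_right h1 (gk_nonneg hs w)
    _ = _ := by simp only [Pi.add_apply]; ring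

theorem gk_mom1 (s : ℝ) (k : Fin 3) : ∫ w : E3, w k * gauss s w = 0 := by
  have h1 := integral_neg_eq_self (fun w : E3 => w k * gauss s w) (volume : Measure E3)
  have h2 : ∫ w : E3, (-w) k * gauss s (-w) = -∫ w : E3, w k * gauss s w := by
    rw [← integral_neg]
    refine integral_congr_ae (Eventually.of_forall fun w => ?_)
    simp only [gk_neg, PiLp.neg_apply, neg_mul]
  linarith

theorem gk_mom2 {s : ℝ} (hs : 0 < s) (k : Fin 3) :
    ∫ w : E3, w k ^ 2 * gauss s w = 2 * s := by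
  have e0 : ∀ w : E3, w k * gauss1 s w k = -(2 * s)⁻¹ * (w k ^ 2 * gauss s w) := by
    intro w
    unfold gauss1
    field_simp
  have e1 : (fun w : E3 => kron k k * gauss s w) = gauss s := by
    ext w
    simp [kron]
  have h := integral_bilinear_hasLineDerivAt_right_eq_neg_left_of_integrable
    (μ := (volume : Measure E3)) (B := ContinuousLinearMap.mul ℝ ℝ) (f := fun w : E3 => w k)
    (f' := fun _ => kron k k) (g := gauss s) (g' := fun w => gauss1 s w k)
    (v := ee k)
    (by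
      change Integrable (fun w : E3 => kron k k * gauss s w) volume
      rw [e1]
      exact gk_integrable hs)
    (by
      change Integrable (fun w : E3 => w k * gauss1 s w k) volume
      simp only [e0]
      exact (gk_int_coord_sq hs k).const_mul _)
    (gk_int_coord hs k) (fun x _ => GK.hasLineDerivAt_coord x k k)
    (fun x _ => GK.hasLineDerivAt_gauss s x k)
  change ∫ w : E3, w k * gauss1 s w k = -∫ w : E3, kron k k * gauss s w at h
  rw [e1, gk_integral hs] at h
  simp only [e0] at h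
  rw [integral_const_mul] at h
  field_simp at h
  linarith

/-- the product of two heat kernels -/
theorem gk_prod {a b : ℝ} (ha : 0 < a) (hb : 0 < b) (x y y' : E3) :
    gauss a (x - y) * gauss b (x - y') = gauss (a + b) (y - y') *
      gauss (a * b / (a + b)) (x - (a + b)⁻¹ • (b • y + a • y')) := by
  have hp := Real.pi_pos
  have hab : 0 < a + b := by linarith
  set u := x - y with hu
  set v := x - y' with hv
  have e1 : y - y' = v - u := by rw [hu, hv]; abel
  have e2 : x - (a + b)⁻¹ • (b • y + a • y') = (a + b)⁻¹ • (b • u + a • v) := by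
    rw [hu, hv, eq_comm, ← sub_eq_zero]
    have : (a + b)⁻¹ • (b • (x - y) + a • (x - y')) - (x - (a + b)⁻¹ • (b • y + a • y')) =
        ((a + b)⁻¹ * (a + b) - 1) • x := by module
    rw [this, inv_mul_cancel₀ hab.ne', sub_self, zero_smul]
  rw [e1, e2]
  unfold gauss
  have e3 : (4 * π * a) ^ (-(3 / 2) : ℝ) * (4 * π * b) ^ (-(3 / 2) : ℝ) =
      (4 * π * (a + b)) ^ (-(3 / 2) : ℝ) * (4 * π * (a * b / (a + b))) ^ (-(3 / 2) : ℝ) := by
    rw [← Real.mul_rpow (by positivity) (by positivity),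
      ← Real.mul_rpow (by positivity) (by positivity)]
    congr 1
    field_simp
  have e4 : -‖u‖ ^ 2 / (4 * a) + -‖v‖ ^ 2 / (4 * b) = -‖v - u‖ ^ 2 / (4 * (a + b)) +
      -‖(a + b)⁻¹ • (b • u + a • v)‖ ^ 2 / (4 * (a * b / (a + b))) := by
    rw [norm_smul, norm_sub_sq_real v u, mul_pow, norm_add_sq_real (b • u), norm_smul, norm_smul,
      real_inner_smul_left, real_inner_smul_right, Real.norm_eq_abs, Real.norm_eq_abs,
      Real.norm_eq_abs, abs_of_pos ha, abs_of_pos hb, abs_of_pos (inv_pos.2 hab),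
      real_inner_comm u v]
    field_simp
    ring
  calc (4 * π * a) ^ (-(3 / 2) : ℝ) * Real.exp (-‖u‖ ^ 2 / (4 * a)) *
        ((4 * π * b) ^ (-(3 / 2) : ℝ) * Real.exp (-‖v‖ ^ 2 / (4 * b)))
      = ((4 * π * a) ^ (-(3 / 2) : ℝ) * (4 * π * b) ^ (-(3 / 2) : ℝ)) *
        Real.exp (-‖u‖ ^ 2 / (4 * a) + -‖v‖ ^ 2 / (4 * b)) := by
        rw [Real.exp_add]; ring
    _ = _ := by
        rw [e3, e4, Real.exp_add]; ring

/-- (G2) -/
theorem stG2 : StG2 := by
  intro a b ha hb y y'
  have hs : 0 < a * b / (a + b) := by positivity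
  simp only [gk_prod ha hb]
  refine ⟨((gk_integrable hs).comp_sub_right _).const_mul _, ?_⟩
  rw [integral_const_mul, integral_sub_right_eq_self (fun w => gauss (a * b / (a + b)) w),
    gk_integral hs, mul_one]

/-- (G3) -/
theorem stG3 : StG3 := by
  intro a b ha hb y y'
  have hab : 0 < a + b := by linarith
  set s := a * b / (a + b) with hsdef
  have hs : 0 < s := by positivity
  set m := (a + b)⁻¹ • (b • y + a • y') with hm
  set d := y - y' with hd
  set g := gauss (a + b) d with hg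
  -- the integrand
  have e1 : ∀ (x : E3) (k : Fin 3), gauss1 a (x - y) k * gauss1 b (x - y') k =
      g / (4 * a * b) * ((x - m) k ^ 2 * gauss s (x - m)) +
      g / (4 * a * b) * ((b - a) / (a + b) * d k) * ((x - m) k * gauss s (x - m)) -
      g / (4 * a * b) * (a * b / (a + b) ^ 2 * d k ^ 2) * gauss s (x - m) := by
    intro x k
    have h1 : gauss1 a (x - y) k * gauss1 b (x - y') k =
        (x - y) k * (x - y') k / (4 * a * b) * (gauss a (x - y) * gauss b (x - y')) := by
      unfold gauss1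
      field_simp
      ring
    rw [h1, gk_prod ha hb]
    have h2 : (x - y) k = (x - m) k - a / (a + b) * d k := by
      simp only [hm, hd, PiLp.sub_apply, PiLp.smul_apply, PiLp.add_apply, smul_eq_mul]
      field_simp
      ring
    have h3 : (x - y') k = (x - m) k + b / (a + b) * d k := by
      simp only [hm, hd, PiLp.sub_apply, PiLp.smul_apply, PiLp.add_apply, smul_eq_mul]
      field_simp
      ring
    rw [h2, h3]
    change _ * (g * gauss s (x - m)) = _
    field_simp
    ring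
  have i1 : ∀ k, Integrable (fun x : E3 => g / (4 * a * b) *
      ((x - m) k ^ 2 * gauss s (x - m))) volume := fun k =>
    ((gk_int_coord_sq hs k).comp_sub_right m).const_mul _
  have i2 : ∀ k, Integrable (fun x : E3 => g / (4 * a * b) * ((b - a) / (a + b) * d k) *
      ((x - m) k * gauss s (x - m))) volume := fun k =>
    ((gk_int_coord hs k).comp_sub_right m).const_mul _
  have i3 : ∀ k, Integrable (fun x : E3 => g / (4 * a * b) * (a * b / (a + b) ^ 2 * d k ^ 2) *
      gauss s (x - m)) volume := fun k =>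
    ((gk_integrable hs).comp_sub_right m).const_mul _
  refine ⟨fun k => ?_, ?_⟩
  · simp only [e1]
    exact ((i1 k).add (i2 k)).sub (i3 k)
  have e2 : ∀ k, ∫ x, gauss1 a (x - y) k * gauss1 b (x - y') k =
      g / (4 * a * b) * (2 * s) - g / (4 * a * b) * (a * b / (a + b) ^ 2 * d k ^ 2) := by
    intro k
    simp only [e1]
    have i12 : Integrable (fun x : E3 => g / (4 * a * b) * ((x - m) k ^ 2 * gauss s (x - m)) +
        g / (4 * a * b) * ((b - a) / (a + b) * d k) * ((x - m) k * gauss s (x - m))) volume :=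
      (i1 k).add (i2 k)
    rw [integral_sub i12 (i3 k), integral_add (i1 k) (i2 k), integral_const_mul,
      integral_const_mul, integral_const_mul,
      integral_sub_right_eq_self (fun w : E3 => w k ^ 2 * gauss s w),
      integral_sub_right_eq_self (fun w : E3 => w k * gauss s w),
      integral_sub_right_eq_self (fun w : E3 => gauss s w), gk_mom2 hs, gk_mom1,
      gk_integral hs]
    ring
  have h4 : ‖d‖ ^ 2 = d 0 ^ 2 + d 1 ^ 2 + d 2 ^ 2 := by
    rw [EuclideanSpace.norm_sq_eq, Fin.sum_univ_three]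
    simp only [Real.norm_eq_abs, sq_abs]
  simp only [e2]
  rw [Fin.sum_univ_three, GK.gaussT, h4, ← hg, hsdef]
  field_simp
  ring

end Pool.Agent.TF.K
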