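import Pool.Agent.TF.K.B3
import Pool.Agent.TF.K.G

/-!
# The energy of the heat flow: conclusion
-/

set_option autoImplicit false

namespace Pool.Agent.TF.K

open MeasureTheory Set Filter Topology Pool.Agent.TO Pool.Agent.TB Pool.Agent.TP
open scoped Real ENNReal

variable {T δ L M : ℝ} {f : ℝ → E3 → ℝ}

/-- `G_{|s - s'| + 2δ}(y - y')` -/
noncomputable def ga (δ : ℝ) (r : (ℝ × E3) × (ℝ × E3)) : ℝ :=
  gauss (|r.1.1 - r.2.1| + 2 * δ) (r.1.2 - r.2.2)

theorem measurable_ga : Measurable (ga δ) := by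
  have h : Measurable fun r : (ℝ × E3) × (ℝ × E3) =>
      ((|r.1.1 - r.2.1| + 2 * δ, r.1.2 - r.2.2) : ℝ × E3) := by fun_prop
  exact GK.measurable_gauss.comp h

theorem ga_le (hδ : 0 < δ) (r : (ℝ × E3) × (ℝ × E3)) : |ga δ r| ≤ δ ^ (-(3 / 2) : ℝ) :=
  gauss_le' hδ (by linarith [abs_nonneg (r.1.1 - r.2.1)]) _

theorem ga_nonneg (hδ : 0 < δ) (r : (ℝ × E3) × (ℝ × E3)) : 0 ≤ ga δ r :=
  GK.gauss_nonneg (by positivity) _

theorem ga_symm (p q : ℝ × E3) : ga δ (p, q) = ga δ (q, p) := by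
  unfold ga gauss
  simp only
  rw [abs_sub_comm, norm_sub_rev]

/-- the second kernel -/
noncomputable def gb (T δ : ℝ) (r : (ℝ × E3) × (ℝ × E3)) : ℝ :=
  gauss (2 * T - r.1.1 - r.2.1 + 2 * δ) (r.1.2 - r.2.2)

theorem measurable_gb : Measurable (gb T δ) := by
  have h : Measurable fun r : (ℝ × E3) × (ℝ × E3) =>
      ((2 * T - r.1.1 - r.2.1 + 2 * δ, r.1.2 - r.2.2) : ℝ × E3) := by fun_prop
  exact GK.measurable_gauss.comp h

theorem gb_le (hδ : 0 < δ) : ∀ᵐ r ∂((mT T).prod (mT T)), ‖gb T δ r‖ ≤ δ ^ (-(3 / 2) : ℝ) := by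
  filter_upwards [ae_fst, ae_snd] with r hr hr'
  exact gauss_le' hδ (by linarith [hr.2, hr'.2]) _

theorem int_FF (hf : Lf T L f) : Integrable (fun r : (ℝ × E3) × (ℝ × E3) =>
    Function.uncurry f r.1 * Function.uncurry f r.2) ((mT T).prod (mT T)) :=
  hf.integrable.mul_prod hf.integrable

theorem int_FFa (hδ : 0 < δ) (hf : Lf T L f) : Integrable (fun r : (ℝ × E3) × (ℝ × E3) =>
    Function.uncurry f r.1 * Function.uncurry f r.2 * ga δ r) ((mT T).prod (mT T)) :=
  (int_FF hf).mul_bdd (c := δ ^ (-(3 / 2) : ℝ)) measurable_ga.aestronglyMeasurable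
    (Eventually.of_forall fun r => ga_le hδ r)

theorem int_FFb (hδ : 0 < δ) (hf : Lf T L f) : Integrable (fun r : (ℝ × E3) × (ℝ × E3) =>
    Function.uncurry f r.1 * Function.uncurry f r.2 * gb T δ r) ((mT T).prod (mT T)) :=
  (int_FF hf).mul_bdd (c := δ ^ (-(3 / 2) : ℝ)) measurable_gb.aestronglyMeasurable (gb_le hδ)

/-- the main term -/
theorem main_le (hδ : 0 < δ) (hf : Lf T L f) (hM : 0 ≤ M)
    (hbd : ∀ t ∈ Ioo 0 T, ∀ x : E3, ∫⁻ s in Ioo 0 t, ∫⁻ y,
      ENNReal.ofReal (gauss (t - s + 2 * δ) (x - y)) * ‖f s y‖ₑ ≤ ENNReal.ofReal M) :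
    ∫⁻ r, ‖Function.uncurry f r.1 * Function.uncurry f r.2 * ga δ r‖ₑ ∂((mT T).prod (mT T)) ≤
      ENNReal.ofReal (2 * (M * L)) := by
  set F := Function.uncurry f with hF
  have hFm : Measurable F := hf.meas
  have key : ∀ p : ℝ × E3, p.1 ∈ Ioo 0 T →
      ∫⁻ q, (if q.1 ≤ p.1 then ENNReal.ofReal (ga δ (p, q)) * ‖F q‖ₑ else 0) ∂(mT T) ≤
        ENNReal.ofReal M := fun p hp => inner_le hbd hf hp
  have hm : Measurable fun r : (ℝ × E3) × (ℝ × E3) =>
      (if r.2.1 ≤ r.1.1 then ENNReal.ofReal (ga δ r) * ‖F r.2‖ₑ else 0) := by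
    refine Measurable.ite (measurableSet_le (by fun_prop) (by fun_prop)) ?_ measurable_const
    exact measurable_ga.ennreal_ofReal.mul (hFm.comp measurable_snd).enorm
  have hm1 : Measurable fun r : (ℝ × E3) × (ℝ × E3) => ‖F r.1‖ₑ *
      (if r.2.1 ≤ r.1.1 then ENNReal.ofReal (ga δ r) * ‖F r.2‖ₑ else 0) :=
    (hFm.comp measurable_fst).enorm.mul hm
  have half : ∫⁻ r, ‖F r.1‖ₑ *
      (if r.2.1 ≤ r.1.1 then ENNReal.ofReal (ga δ r) * ‖F r.2‖ₑ else 0) ∂((mT T).prod (mT T)) ≤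
      ENNReal.ofReal (M * L) := by
    rw [lintegral_prod _ hm1.aemeasurable]
    calc ∫⁻ p, ∫⁻ q, ‖F (p, q).1‖ₑ * (if (p, q).2.1 ≤ (p, q).1.1 then
          ENNReal.ofReal (ga δ (p, q)) * ‖F (p, q).2‖ₑ else 0) ∂(mT T) ∂(mT T)
        ≤ ∫⁻ p, ‖F p‖ₑ * ENNReal.ofReal M ∂(mT T) := by
          apply lintegral_mono_ae
          filter_upwards [ae_mT] with p hp
          have hmp : Measurable fun q : ℝ × E3 =>
              (if q.1 ≤ p.1 then ENNReal.ofReal (ga δ (p, q)) * ‖F q‖ₑ else 0) :=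
            hm.comp (measurable_const.prodMk measurable_id)
          rw [lintegral_const_mul _ hmp]
          gcongr
          exact key p hp
      _ = (∫⁻ p, ‖F p‖ₑ ∂(mT T)) * ENNReal.ofReal M := lintegral_mul_const _ hFm.enorm
      _ ≤ ENNReal.ofReal L * ENNReal.ofReal M := by
          gcongr
          rw [lintegral_prod _ hFm.enorm.aemeasurable]
          exact hf.int
      _ = ENNReal.ofReal (M * L) := by
          rw [← ENNReal.ofReal_mul hf.nn, mul_comm]
  have swap : ∫⁻ r, ‖F r.2‖ₑ *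
      (if r.1.1 ≤ r.2.1 then ENNReal.ofReal (ga δ r) * ‖F r.1‖ₑ else 0) ∂((mT T).prod (mT T)) =
      ∫⁻ r, ‖F r.1‖ₑ *
      (if r.2.1 ≤ r.1.1 then ENNReal.ofReal (ga δ r) * ‖F r.2‖ₑ else 0) ∂((mT T).prod (mT T)) := by
    rw [← lintegral_prod_swap]
    apply lintegral_congr
    intro r
    simp only [Prod.fst_swap, Prod.snd_swap]
    rw [show ga δ r.swap = ga δ r from ga_symm r.2 r.1]
  calc ∫⁻ r, ‖F r.1 * F r.2 * ga δ r‖ₑ ∂((mT T).prod (mT T))
      ≤ ∫⁻ r, (‖F r.1‖ₑ *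
          (if r.2.1 ≤ r.1.1 then ENNReal.ofReal (ga δ r) * ‖F r.2‖ₑ else 0)) + (‖F r.2‖ₑ *
          (if r.1.1 ≤ r.2.1 then ENNReal.ofReal (ga δ r) * ‖F r.1‖ₑ else 0))
          ∂((mT T).prod (mT T)) := by
        apply lintegral_mono
        intro r
        have e1 : ‖F r.1 * F r.2 * ga δ r‖ₑ = ‖F r.1‖ₑ * ‖F r.2‖ₑ * ENNReal.ofReal (ga δ r) := by
          rw [enorm_mul, enorm_mul, ← ofReal_norm (ga δ r), Real.norm_of_nonneg (ga_nonneg hδ r)]
        simp only [e1]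
        rcases le_total r.2.1 r.1.1 with h | h
        · rw [if_pos h]
          refine le_trans (le_of_eq ?_) le_self_add
          ring
        · rw [if_pos h]
          refine le_trans (le_of_eq ?_) le_add_self
          ring
    _ = _ + _ := lintegral_add_left hm1 _
    _ ≤ ENNReal.ofReal (M * L) + ENNReal.ofReal (M * L) := by
        rw [swap]
        gcongr
    _ = ENNReal.ofReal (2 * (M * L)) := by
        have := hf.nn
        rw [← ENNReal.ofReal_add (by positivity) (by positivity)]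
        congr 1
        ring

theorem stB : StB := by
  intro T L M f hf hM δ hδ hbd k
  have hFm : Measurable (Function.uncurry f) := hf.meas
  have h1 := fun k => sq_int (measurable_kg (δ := δ) k) hf.meas hf.integrable (cK_lt T δ)
    (kg_bound (T := T) hδ k)
  have e1 : ∑ k, ∫ x, (∫ p, kg δ k x p * Function.uncurry f p ∂(mT T)) ^ 2 ∂(mT T) =
      ∫ r : (ℝ × E3) × (ℝ × E3), 1 / 2 * (Function.uncurry f r.1 * Function.uncurry f r.2 * ga δ r) -
        1 / 2 * (Function.uncurry f r.1 * Function.uncurry f r.2 * gb T δ r)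
        ∂((mT T).prod (mT T)) := by
    rw [Finset.sum_congr rfl fun k _ => (h1 k).2.2,
      ← integral_finsetSum _ fun k _ => (h1 k).2.1]
    apply integral_congr_ae
    filter_upwards [ae_fst, ae_snd] with r hr hr'
    rw [← Finset.mul_sum, corr stG3 hδ hr.2 hr'.2 hr.1]
    unfold ga gb
    ring
  have e2 : ∑ k, ∫ x, (∫ p, kg δ k x p * Function.uncurry f p ∂(mT T)) ^ 2 ∂(mT T) ≤ M * L := by
    rw [e1, integral_sub ((int_FFa hδ hf).const_mul _) ((int_FFb hδ hf).const_mul _),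
      integral_const_mul, integral_const_mul]
    have h2 := final_nonneg stG2 hδ hf
    have h3 : ∫ r : (ℝ × E3) × (ℝ × E3), Function.uncurry f r.1 * Function.uncurry f r.2 * ga δ r
        ∂((mT T).prod (mT T)) ≤ 2 * (M * L) := by
      have hLn := hf.nn
      refine (le_abs_self _).trans ?_
      rw [← Real.norm_eq_abs]
      refine (norm_integral_le_lintegral_norm _).trans ?_
      refine ENNReal.toReal_le_of_le_ofReal (by positivity) ?_
      simp only [ofReal_norm]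
      exact main_le hδ hf hM hbd
    change 0 ≤ ∫ r, Function.uncurry f r.1 * Function.uncurry f r.2 * gb T δ r
      ∂((mT T).prod (mT T)) at h2
    linarith
  have e3 : ∫ x, (∫ p, kg δ k x p * Function.uncurry f p ∂(mT T)) ^ 2 ∂(mT T) ≤ M * L :=
    (Finset.single_le_sum (f := fun k => ∫ x, (∫ p, kg δ k x p * Function.uncurry f p ∂(mT T)) ^ 2
      ∂(mT T)) (fun k _ => integral_nonneg fun x => sq_nonneg _) (Finset.mem_univ k)).trans e2
  have hgm : Measurable fun x : ℝ × E3 => ∫ p, kg δ k x p * Function.uncurry f p ∂(mT T) := by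
    have hs : StronglyMeasurable fun q : (ℝ × E3) × (ℝ × E3) =>
        kg δ k q.1 q.2 * Function.uncurry f q.2 :=
      ((measurable_kg k).mul (hFm.comp measurable_snd)).stronglyMeasurable
    exact hs.integral_prod_right.measurable
  calc ∫⁻ t in Ioo 0 T, ∫⁻ x, ‖bg δ k f t x‖ₑ ^ 2
      = ∫⁻ t in Ioo 0 T, ∫⁻ x, ‖∫ p, kg δ k (t, x) p * Function.uncurry f p ∂(mT T)‖ₑ ^ 2 := by
        refine setLIntegral_congr_fun measurableSet_Ioo fun t ht => ?_
        simp only [bg_eq hδ k hf ht]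
    _ = ∫⁻ x, ‖∫ p, kg δ k x p * Function.uncurry f p ∂(mT T)‖ₑ ^ 2 ∂(mT T) :=
        (lintegral_prod (μ := volume.restrict (Ioo 0 T)) (ν := (volume : Measure E3))
          (fun x => ‖∫ p, kg δ k x p * Function.uncurry f p ∂(mT T)‖ₑ ^ 2)
          (hgm.enorm.pow_const 2).aemeasurable).symm
    _ = ENNReal.ofReal (∫ x, (∫ p, kg δ k x p * Function.uncurry f p ∂(mT T)) ^ 2 ∂(mT T)) := by
        rw [ofReal_integral_eq_lintegral_ofReal (h1 k).1
          (Eventually.of_forall fun x => sq_nonneg _)]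
        apply lintegral_congr
        intro x
        rw [← ofReal_norm, ← ENNReal.ofReal_pow (norm_nonneg _), Real.norm_eq_abs, sq_abs]
    _ ≤ ENNReal.ofReal (M * L) := ENNReal.ofReal_le_ofReal e3

end Pool.Agent.TF.K
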