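import Pool.Agent.TF.K.KTa

/-!
# The bilinear estimate of Koch and Tataru
-/

set_option autoImplicit false

namespace Pool.Agent.TF.K

open MeasureTheory Set Filter Topology Pool.Agent.TO Pool.Agent.TB Pool.Agent.TP
open scoped Real ENNReal

variable {T N C : ℝ} {f g : ℝ → E3 → ℝ}

/-- the near part of `f` -/
noncomputable def nr (x : E3) (R : ℝ) (f : ℝ → E3 → ℝ) (s : ℝ) (y : E3) : ℝ :=
  (Metric.ball x (2 * R)).indicator (f s) y

/-- the far part of `f` -/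
noncomputable def fr (x : E3) (R : ℝ) (f : ℝ → E3 → ℝ) (s : ℝ) (y : E3) : ℝ :=
  (Metric.ball x (2 * R))ᶜ.indicator (f s) y

theorem hyp_ind {S : Set E3} (hS : MeasurableSet S) (hf : Hyp T N f) :
    Hyp T N fun s => S.indicator (f s) := by
  refine hf.of_le ?_ fun s y => ?_
  · have : (Function.uncurry fun s => S.indicator (f s)) =
        (Prod.snd ⁻¹' S).indicator (Function.uncurry f) := by
      ext p
      by_cases h : p.2 ∈ S
      · simp [Function.uncurry, h]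
      · simp [Function.uncurry, h]
    rw [this]
    exact hf.meas.indicator (measurable_snd hS)
  · by_cases h : y ∈ S
    · simp [h]
    · simp [h]

theorem hyp_nr (x : E3) (R : ℝ) (hf : Hyp T N f) : Hyp T N (nr x R f) :=
  hyp_ind measurableSet_ball hf

theorem hyp_fr (x : E3) (R : ℝ) (hf : Hyp T N f) : Hyp T N (fr x R f) :=
  hyp_ind measurableSet_ball.compl hf

theorem nr_add_fr (x : E3) (R : ℝ) (s : ℝ) (y : E3) : f s y = nr x R f s y + fr x R f s y :=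
  (congrFun (indicator_self_add_compl (Metric.ball x (2 * R)) (f s)) y).symm

/-- the near part is integrable -/
theorem lf_nr (hC : Su C) (hf : Hyp T N f) {t : ℝ} (ht : t ∈ Ioo 0 T) (x : E3) :
    Lf t (25 * C * N * √t ^ 3) (nr x (√t) f) := by
  have ht0 := ht.1
  have hs := Real.sqrt_pos.2 ht.1
  have hC0 := hC.pos
  have hN := hf.nn
  refine ⟨(hyp_nr x (√t) hf).meas, by positivity, ?_⟩
  calc ∫⁻ s in Ioo 0 t, ∫⁻ y, ‖nr x (√t) f s y‖ₑ
      ≤ ∫⁻ s in Ioo 0 t, ENNReal.ofReal (25 * t ^ 2) *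
        ∫⁻ y, ENNReal.ofReal (((t - s + ‖x - y‖ ^ 2) ^ 2)⁻¹) * ‖f s y‖ₑ := by
        apply setLIntegral_mono' measurableSet_Ioo
        intro s hss
        rw [← lintegral_const_mul' _ _ ENNReal.ofReal_ne_top]
        apply lintegral_mono
        intro y
        simp only
        unfold nr
        by_cases hy : y ∈ Metric.ball x (2 * √t)
        · rw [indicator_of_mem hy, ← mul_assoc, ← ENNReal.ofReal_mul (by positivity)]
          have h1 : ‖x - y‖ ^ 2 ≤ 4 * t := by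
            have h2 : ‖x - y‖ < 2 * √t := by
              rw [← dist_eq_norm, dist_comm]
              exact hy
            have h3 : ‖x - y‖ ^ 2 ≤ (2 * √t) ^ 2 := by gcongr
            rw [mul_pow, Real.sq_sqrt ht0.le] at h3
            linarith
          have h4 : 0 < t - s + ‖x - y‖ ^ 2 := by
            have := sq_nonneg ‖x - y‖
            linarith [hss.2]
          have h5 : t - s + ‖x - y‖ ^ 2 ≤ 5 * t := by linarith [hss.1]
          have h6 : 1 ≤ 25 * t ^ 2 * ((t - s + ‖x - y‖ ^ 2) ^ 2)⁻¹ := by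
            rw [← div_eq_mul_inv, le_div_iff₀ (by positivity), one_mul]
            calc (t - s + ‖x - y‖ ^ 2) ^ 2 ≤ (5 * t) ^ 2 := by gcongr
              _ = _ := by ring
          calc ‖f s y‖ₑ = ENNReal.ofReal 1 * ‖f s y‖ₑ := by rw [ENNReal.ofReal_one, one_mul]
            _ ≤ _ := by gcongr
        · rw [indicator_of_notMem hy, enorm_zero]
          exact bot_le
    _ = ENNReal.ofReal (25 * t ^ 2) * ∫⁻ s in Ioo 0 t,
        ∫⁻ y, ENNReal.ofReal (((t - s + ‖x - y‖ ^ 2) ^ 2)⁻¹) * ‖f s y‖ₑ :=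
        lintegral_const_mul' _ _ ENNReal.ofReal_ne_top
    _ ≤ ENNReal.ofReal (25 * t ^ 2) * ENNReal.ofReal (C * N / √t) := by
        gcongr
        exact hC.ker T N f hf t ht x
    _ = ENNReal.ofReal (25 * C * N * √t ^ 3) := by
        rw [← ENNReal.ofReal_mul (by positivity)]
        congr 1
        have h1 : t = √t ^ 2 := (Real.sq_sqrt ht0.le).symm
        have h2 : 25 * t ^ 2 * (C * N / √t) = 25 * (√t ^ 2) ^ 2 * (C * N / √t) := by
          rw [← h1]
        rw [h2]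
        field_simp

/-- the near part -/
theorem near_le (hC : Su C) (hf : Hyp T N f) {t : ℝ} (ht : t ∈ Ioo 0 T) (x : E3)
    (i j k : Fin 3) :
    ∫⁻ s in Ioo 0 t, ∫⁻ y, ‖bo 0 i j k (nr x (√t) f) s y‖ₑ ^ 2 ≤
      ENNReal.ofReal (25 * C ^ 2 * N ^ 2 * √t ^ 3) := by
  have hC0 := hC.pos
  have hN := hf.nn
  have hn := hyp_nr x (√t) hf
  have hl := lf_nr hC hf ht x
  have hb : ∀ n : ℕ, ∫⁻ s in Ioo 0 t, ∫⁻ y, ‖bo (1 / ((n:ℝ) + 1)) i j k (nr x (√t) f) s y‖ₑ ^ 2 ≤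
      ENNReal.ofReal (25 * C ^ 2 * N ^ 2 * √t ^ 3) := by
    intro n
    have hδ : 0 < 1 / ((n:ℝ) + 1) := by positivity
    have hB := stB t _ (C * N) _ hl (by positivity) _ hδ (fun τ hτ z => by
      exact hC.gau T N _ hn τ ⟨hτ.1, hτ.2.trans ht.2⟩ z _ (by positivity)) k
    refine le_trans ?_ (hB.trans (le_of_eq (by congr 1; ring)))
    apply setLIntegral_mono' measurableSet_Ioo
    intro s hs
    refine le_trans ?_ (stA t _ _ hl _ hδ j k s hs)
    exact Finset.single_le_sum (f := fun i => ∫⁻ x_1, ‖bo (1 / ((n:ℝ) + 1)) i j k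
      (nr x (√t) f) s x_1‖ₑ ^ 2) (fun _ _ => bot_le) (Finset.mem_univ i)
  have hm : ∀ δ : ℝ, Measurable fun q : ℝ × E3 => ‖bo δ i j k (nr x (√t) f) q.1 q.2‖ₑ ^ 2 :=
    fun δ => (measurable_bo δ i j k hn.meas).enorm.pow_const 2
  calc ∫⁻ s in Ioo 0 t, ∫⁻ y, ‖bo 0 i j k (nr x (√t) f) s y‖ₑ ^ 2
      ≤ ∫⁻ s in Ioo 0 t, liminf (fun n : ℕ => ∫⁻ y,
        ‖bo (1 / ((n:ℝ) + 1)) i j k (nr x (√t) f) s y‖ₑ ^ 2) atTop := by
        apply setLIntegral_mono' measurableSet_Ioo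
        intro s hs
        refine le_trans ?_ (lintegral_liminf_le fun n =>
          (hm (1 / ((n:ℝ) + 1))).comp (measurable_const.prodMk measurable_id))
        apply lintegral_mono
        intro y
        have h1 := bo_tendsto hC hn (t := s) ⟨hs.1, hs.2.trans ht.2⟩ y i j k
        have h2 : Tendsto (fun n : ℕ => ‖bo (1 / ((n:ℝ) + 1)) i j k (nr x (√t) f) s y‖ₑ ^ 2) atTop
            (𝓝 (‖bo 0 i j k (nr x (√t) f) s y‖ₑ ^ 2)) :=
          ((continuous_enorm.tendsto _).comp h1).ennrpow_const 2 |>.congr (by simp) |>.trans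
            (by simp)
        exact h2.liminf_eq.ge
    _ ≤ liminf (fun n : ℕ => ∫⁻ s in Ioo 0 t, ∫⁻ y,
        ‖bo (1 / ((n:ℝ) + 1)) i j k (nr x (√t) f) s y‖ₑ ^ 2) atTop :=
        lintegral_liminf_le fun n => (hm (1 / ((n:ℝ) + 1))).lintegral_prod_right'
    _ ≤ ENNReal.ofReal (25 * C ^ 2 * N ^ 2 * √t ^ 3) := by
        refine liminf_le_of_frequently_le' (Eventually.frequently ?_)
        exact Eventually.of_forall hb

/-- the far part -/
theorem far_le (hC : Su C) (hf : Hyp T N f) {t : ℝ} (ht : t ∈ Ioo 0 T) (x : E3)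
    (i j k : Fin 3) {τ : ℝ} (hτ : τ ∈ Ioo 0 t) {z : E3} (hz : z ∈ Metric.ball x (√t)) :
    ‖bo 0 i j k (fr x (√t) f) τ z‖ₑ ≤ ENNReal.ofReal (25 * CO * (C * N / √t)) := by
  have hCO := CO_pos
  have hs := Real.sqrt_pos.2 ht.1
  calc ‖bo 0 i j k (fr x (√t) f) τ z‖ₑ
      ≤ ∫⁻ s in Ioo 0 τ, ∫⁻ y, ‖oseen (τ - s + 0) (z - y) i j k * fr x (√t) f s y‖ₑ :=
        (enorm_integral_le_lintegral_enorm _).trans
          (lintegral_mono fun s => enorm_integral_le_lintegral_enorm _)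
    _ ≤ ∫⁻ s in Ioo 0 τ, ENNReal.ofReal (25 * CO) *
        ∫⁻ y, ENNReal.ofReal (((t - s + ‖x - y‖ ^ 2) ^ 2)⁻¹) * ‖f s y‖ₑ := by
        apply setLIntegral_mono' measurableSet_Ioo
        intro s hss
        rw [← lintegral_const_mul' _ _ ENNReal.ofReal_ne_top]
        apply lintegral_mono
        intro y
        simp only
        unfold fr
        by_cases hy : y ∈ (Metric.ball x (2 * √t))ᶜ
        · rw [indicator_of_mem hy, ← mul_assoc, ← ENNReal.ofReal_mul (by positivity), enorm_mul]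
          gcongr
          have hσ : 0 < τ - s := by linarith [hss.2]
          refine (enorm_oseen_le hσ le_rfl _ i j k).trans ?_
          rw [← ENNReal.ofReal_mul hCO.le]
          apply ENNReal.ofReal_le_ofReal
          have h1 : 2 * √t ≤ ‖x - y‖ := by
            rw [← dist_eq_norm, dist_comm]
            simpa using hy
          have h2 : ‖x - z‖ < √t := by
            rw [← dist_eq_norm, dist_comm]
            exact hz
          have h3 : ‖x - y‖ ≤ ‖x - z‖ + ‖z - y‖ := by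
            have := norm_add_le (x - z) (z - y)
            rwa [sub_add_sub_cancel] at this
          have h4 : ‖x - y‖ / 2 ≤ ‖z - y‖ := by linarith
          have h5 : t ≤ ‖x - y‖ ^ 2 / 4 := by
            have h6 : (2 * √t) ^ 2 ≤ ‖x - y‖ ^ 2 := by gcongr
            rw [mul_pow, Real.sq_sqrt ht.1.le] at h6
            linarith
          have h7 : ‖x - y‖ ^ 2 / 4 ≤ ‖z - y‖ ^ 2 := by
            have h8 : (‖x - y‖ / 2) ^ 2 ≤ ‖z - y‖ ^ 2 := by gcongr
            linarith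
          have h9 : t - s + ‖x - y‖ ^ 2 ≤ 5 * (τ - s + ‖z - y‖ ^ 2) := by
            linarith [hss.1]
          have h10 : 0 < t - s + ‖x - y‖ ^ 2 := by
            have := sq_nonneg ‖x - y‖
            linarith [hss.2, hτ.2]
          have h11 : 0 < τ - s + ‖z - y‖ ^ 2 := by
            have := sq_nonneg ‖z - y‖
            linarith
          have h12 : ((τ - s + ‖z - y‖ ^ 2) ^ 2)⁻¹ ≤ 25 * ((t - s + ‖x - y‖ ^ 2) ^ 2)⁻¹ := by
            rw [← div_eq_mul_inv, le_div_iff₀ (by positivity), inv_mul_le_iff₀ (by positivity)]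
            calc (t - s + ‖x - y‖ ^ 2) ^ 2 ≤ (5 * (τ - s + ‖z - y‖ ^ 2)) ^ 2 := by gcongr
              _ = _ := by ring
          calc CO * ((τ - s + ‖z - y‖ ^ 2) ^ 2)⁻¹ ≤ CO * (25 * ((t - s + ‖x - y‖ ^ 2) ^ 2)⁻¹) := by
                gcongr
            _ = _ := by ring
        · rw [indicator_of_notMem hy, mul_zero, enorm_zero]
          exact bot_le
    _ = ENNReal.ofReal (25 * CO) * ∫⁻ s in Ioo 0 τ,
        ∫⁻ y, ENNReal.ofReal (((t - s + ‖x - y‖ ^ 2) ^ 2)⁻¹) * ‖f s y‖ₑ :=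
        lintegral_const_mul' _ _ ENNReal.ofReal_ne_top
    _ ≤ ENNReal.ofReal (25 * CO) * ∫⁻ s in Ioo 0 t,
        ∫⁻ y, ENNReal.ofReal (((t - s + ‖x - y‖ ^ 2) ^ 2)⁻¹) * ‖f s y‖ₑ := by
        gcongr
        exact hτ.2.le
    _ ≤ ENNReal.ofReal (25 * CO) * ENNReal.ofReal (C * N / √t) := by
        gcongr
        exact hC.ker T N f hf t ht x
    _ = _ := (ENNReal.ofReal_mul (by positivity)).symm

theorem far_sq_le (hC : Su C) (hf : Hyp T N f) {t : ℝ} (ht : t ∈ Ioo 0 T) (x : E3)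
    (i j k : Fin 3) :
    ∫⁻ s in Ioo 0 t, ∫⁻ y in Metric.ball x (√t), ‖bo 0 i j k (fr x (√t) f) s y‖ₑ ^ 2 ≤
      ENNReal.ofReal (625 * (4 * π / 3) * CO ^ 2 * C ^ 2 * N ^ 2 * √t ^ 3) := by
  have hCO := CO_pos
  have hs := Real.sqrt_pos.2 ht.1
  have hC0 := hC.pos
  have hN := hf.nn
  have hp := Real.pi_pos
  calc ∫⁻ s in Ioo 0 t, ∫⁻ y in Metric.ball x (√t), ‖bo 0 i j k (fr x (√t) f) s y‖ₑ ^ 2
      ≤ ∫⁻ _ in Ioo 0 t, ∫⁻ _ in Metric.ball x (√t),
        ENNReal.ofReal (25 * CO * (C * N / √t)) ^ 2 := by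
        apply setLIntegral_mono' measurableSet_Ioo
        intro s hs
        apply setLIntegral_mono' measurableSet_ball
        intro y hy
        gcongr
        exact far_le hC hf ht x i j k hs hy
    _ = ENNReal.ofReal (625 * (4 * π / 3) * CO ^ 2 * C ^ 2 * N ^ 2 * √t ^ 3) := by
        rw [lintegral_const, lintegral_const, Measure.restrict_apply MeasurableSet.univ,
          Measure.restrict_apply MeasurableSet.univ, univ_inter, univ_inter, Real.volume_Ioo,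
          sub_zero, EuclideanSpace.volume_ball_fin_three, ← ENNReal.ofReal_pow (by positivity),
          ← ENNReal.ofReal_pow hs.le, ← ENNReal.ofReal_mul (by positivity),
          ← ENNReal.ofReal_mul (by positivity), ← ENNReal.ofReal_mul (by positivity)]
        congr 1
        have h1 : t = √t ^ 2 := (Real.sq_sqrt ht.1.le).symm
        have h2 : (25 * CO * (C * N / √t)) ^ 2 * (√t ^ 3 * (π * 4 / 3)) * t =
            (25 * CO * (C * N / √t)) ^ 2 * (√t ^ 3 * (π * 4 / 3)) * √t ^ 2 := by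
          rw [← h1]
        rw [h2]
        field_simp
        ring

theorem sq_add_enorm_le (a b : ℝ) : ‖a + b‖ₑ ^ 2 ≤ 2 * ‖a‖ₑ ^ 2 + 2 * ‖b‖ₑ ^ 2 := by
  have h1 : (a + b) ^ 2 ≤ 2 * a ^ 2 + 2 * b ^ 2 := by nlinarith [sq_nonneg (a - b)]
  have e3 : ∀ c : ℝ, ‖c‖ₑ ^ 2 = ENNReal.ofReal (c ^ 2) := fun c => by
    rw [← ofReal_norm, ← ENNReal.ofReal_pow (norm_nonneg _), Real.norm_eq_abs, sq_abs]
  rw [e3, e3, e3]
  calc ENNReal.ofReal ((a + b) ^ 2) ≤ ENNReal.ofReal (2 * a ^ 2 + 2 * b ^ 2) :=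
        ENNReal.ofReal_le_ofReal h1
    _ = _ := by
        rw [ENNReal.ofReal_add (by positivity) (by positivity),
          ENNReal.ofReal_mul (by norm_num), ENNReal.ofReal_mul (by norm_num)]
        norm_num

theorem split_gen {t : ℝ} {F G H : ℝ → E3 → ℝ} (hG : Measurable (Function.uncurry G)) {S : Set E3}
    (he : ∀ s ∈ Ioo 0 t, ∀ y, F s y = G s y + H s y) :
    ∫⁻ s in Ioo 0 t, ∫⁻ y in S, ‖F s y‖ₑ ^ 2 ≤
      2 * (∫⁻ s in Ioo 0 t, ∫⁻ y, ‖G s y‖ₑ ^ 2) +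
      2 * ∫⁻ s in Ioo 0 t, ∫⁻ y in S, ‖H s y‖ₑ ^ 2 := by
  have hmn : Measurable fun q : ℝ × E3 => 2 * ‖G q.1 q.2‖ₑ ^ 2 :=
    (hG.enorm.pow_const 2).const_mul 2
  have hmn' : ∀ s, Measurable fun y : E3 => 2 * ‖G s y‖ₑ ^ 2 := fun s =>
    hmn.comp (measurable_const.prodMk measurable_id)
  have hm2 : Measurable fun s : ℝ => ∫⁻ y, 2 * ‖G s y‖ₑ ^ 2 := hmn.lintegral_prod_right'
  have e1 : ∀ s ∈ Ioo 0 t, ∫⁻ y in S, ‖F s y‖ₑ ^ 2 ≤
      (∫⁻ y, 2 * ‖G s y‖ₑ ^ 2) + ∫⁻ y in S, 2 * ‖H s y‖ₑ ^ 2 := by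
    intro s hss
    have e2 : ∀ y, ‖F s y‖ₑ ^ 2 ≤ 2 * ‖G s y‖ₑ ^ 2 + 2 * ‖H s y‖ₑ ^ 2 := by
      intro y
      rw [he s hss y]
      exact sq_add_enorm_le _ _
    refine (lintegral_mono e2).trans ?_
    rw [lintegral_add_left (hmn' s)]
    exact add_le_add (lintegral_mono' Measure.restrict_le_self le_rfl) le_rfl
  refine (setLIntegral_mono' measurableSet_Ioo e1).trans ?_
  rw [lintegral_add_left hm2]
  simp only [lintegral_const_mul' 2 _ ENNReal.ofNat_ne_top]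
  exact le_rfl

theorem split_le (hC : Su C) (hf : Hyp T N f) {t : ℝ} (ht : t ∈ Ioo 0 T) (x : E3)
    (i j k : Fin 3) :
    ∫⁻ s in Ioo 0 t, ∫⁻ y in Metric.ball x (√t), ‖bo 0 i j k f s y‖ₑ ^ 2 ≤
      2 * (∫⁻ s in Ioo 0 t, ∫⁻ y, ‖bo 0 i j k (nr x (√t) f) s y‖ₑ ^ 2) +
      2 * ∫⁻ s in Ioo 0 t, ∫⁻ y in Metric.ball x (√t), ‖bo 0 i j k (fr x (√t) f) s y‖ₑ ^ 2 :=
  split_gen (measurable_bo 0 i j k (hyp_nr x (√t) hf).meas) fun s hs y =>
    bo_add hC (hyp_nr x (√t) hf) (hyp_fr x (√t) hf) hf (nr_add_fr x (√t)) (t := s)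
      ⟨hs.1, hs.2.trans ht.2⟩ y i j k

theorem stKT_of (hSu : StSu) : StKT := by
  obtain ⟨C, hC⟩ := exists_su hSu
  have hC0 := hC.pos
  have hCO := CO_pos
  have hC1 : (1:ℝ) ≤ CO := by
    unfold CO
    norm_num
  refine ⟨100 * CO * C, by positivity, fun T N f hf i j k t ht x => ⟨?_, ?_⟩⟩
  · have hN := hf.nn
    have hs := Real.sqrt_pos.2 ht.1
    have h1 := ker_int hC hf ht x i j k le_rfl
    simp only [add_zero] at h1
    refine h1.trans (ENNReal.ofReal_le_ofReal ?_)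
    rw [mul_div_assoc']
    gcongr ?_ / _
    have : 0 ≤ CO * (C * N) := by positivity
    linarith
  · have hN := hf.nn
    have hs := Real.sqrt_pos.2 ht.1
    have hp := Real.pi_pos
    have hp4 := Real.pi_lt_four
    have hC2 : (1:ℝ) ≤ CO ^ 2 := one_le_pow₀ hC1
    have h1 : 2 * (25 * C ^ 2 * N ^ 2 * √t ^ 3) +
        2 * (625 * (4 * π / 3) * CO ^ 2 * C ^ 2 * N ^ 2 * √t ^ 3) =
        (50 + 5000 * π / 3 * CO ^ 2) * (C ^ 2 * N ^ 2 * √t ^ 3) := by ring
    have h2 : (100 * CO * C * N) ^ 2 * √t ^ 3 =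
        (10000 * CO ^ 2) * (C ^ 2 * N ^ 2 * √t ^ 3) := by ring
    have h3 : 5000 * π / 3 * CO ^ 2 ≤ 5000 * 4 / 3 * CO ^ 2 := by gcongr
    have h4 : 50 + 5000 * π / 3 * CO ^ 2 ≤ 10000 * CO ^ 2 := by linarith
    have h5 : 0 ≤ C ^ 2 * N ^ 2 * √t ^ 3 := by positivity
    have h6 := mul_le_mul_of_nonneg_right h4 h5
    have n1 := near_le hC hf ht x i j k
    have n2 := far_sq_le hC hf ht x i j k
    refine (split_le hC hf ht x i j k).trans ?_
    refine (add_le_add (mul_le_mul_right n1 2) (mul_le_mul_right n2 2)).trans ?_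
    have e : (2:ℝ≥0∞) = ENNReal.ofReal 2 := by norm_num
    rw [e, ← ENNReal.ofReal_mul (by norm_num), ← ENNReal.ofReal_mul (by norm_num),
      ← ENNReal.ofReal_add (by positivity) (by positivity)]
    apply ENNReal.ofReal_le_ofReal
    rw [h1, h2]
    exact h6

end Pool.Agent.TF.K
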