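import Pool.Agent.TF.K.B4
import Pool.Agent.TF.K.A

/-!
# The bilinear estimate of Koch and Tataru: the near part and the far part
-/

set_option autoImplicit false

namespace Pool.Agent.TF.K

open MeasureTheory Set Filter Topology Pool.Agent.TO Pool.Agent.TB Pool.Agent.TP
open scoped Real ENNReal

variable {T N C : ℝ} {f g : ℝ → E3 → ℝ}

theorem Hyp.of_le (h : Hyp T N f) (hg : Measurable (Function.uncurry g))
    (hle : ∀ s y, |g s y| ≤ |f s y|) : Hyp T N g where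
  meas := hg
  nn := h.nn
  sup := by
    intro s hs
    filter_upwards [h.sup s hs] with y hy
    exact (mul_le_mul_of_nonneg_left (hle s y) hs.1.le).trans hy
  car := by
    intro t ht x
    refine le_trans (lintegral_mono fun s => lintegral_mono fun y => ?_) (h.car t ht x)
    rw [← ofReal_norm, ← ofReal_norm]
    exact ENNReal.ofReal_le_ofReal (hle s y)

/-- the pointwise bounds, with the constant `C` -/
structure Su (C : ℝ) : Prop where
  pos : 0 < C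
  ker : ∀ T N f, Hyp T N f → ∀ t ∈ Ioo 0 T, ∀ x : E3,
    ∫⁻ s in Ioo 0 t, ∫⁻ y, ENNReal.ofReal (((t - s + ‖x - y‖ ^ 2) ^ 2)⁻¹) * ‖f s y‖ₑ ≤
      ENNReal.ofReal (C * N / √t)
  gau : ∀ T N f, Hyp T N f → ∀ t ∈ Ioo 0 T, ∀ x : E3, ∀ δ : ℝ, 0 ≤ δ →
    ∫⁻ s in Ioo 0 t, ∫⁻ y, ENNReal.ofReal (gauss (t - s + δ) (x - y)) * ‖f s y‖ₑ ≤
      ENNReal.ofReal (C * N)

theorem exists_su (h : StSu) : ∃ C, Su C := by
  obtain ⟨C, h1, h2⟩ := h
  exact ⟨C, h1, fun T N f hf t ht x => (h2 T N f hf t ht x).1,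
    fun T N f hf t ht x => (h2 T N f hf t ht x).2⟩

theorem enorm_oseen_le {σ δ : ℝ} (hσ : 0 < σ) (hδ : 0 ≤ δ) (z : E3) (i j k : Fin 3) :
    ‖oseen (σ + δ) z i j k‖ₑ ≤ ENNReal.ofReal CO * ENNReal.ofReal (((σ + ‖z‖ ^ 2) ^ 2)⁻¹) := by
  rw [← ENNReal.ofReal_mul CO_pos.le, ← ofReal_norm, Real.norm_eq_abs]
  apply ENNReal.ofReal_le_ofReal
  refine (abs_oseen_le (by linarith) z i j k).trans ?_
  have := CO_pos
  gcongr
  linarith

theorem ker_int (hC : Su C) (hf : Hyp T N f) {t : ℝ} (ht : t ∈ Ioo 0 T) (x : E3) (i j k : Fin 3)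
    {δ : ℝ} (hδ : 0 ≤ δ) :
    ∫⁻ s in Ioo 0 t, ∫⁻ y, ‖oseen (t - s + δ) (x - y) i j k‖ₑ * ‖f s y‖ₑ ≤
      ENNReal.ofReal (CO * (C * N / √t)) := by
  have hCO := CO_pos
  calc ∫⁻ s in Ioo 0 t, ∫⁻ y, ‖oseen (t - s + δ) (x - y) i j k‖ₑ * ‖f s y‖ₑ
      ≤ ∫⁻ s in Ioo 0 t, ENNReal.ofReal CO *
        ∫⁻ y, ENNReal.ofReal (((t - s + ‖x - y‖ ^ 2) ^ 2)⁻¹) * ‖f s y‖ₑ := by
        apply setLIntegral_mono' measurableSet_Ioo
        intro s hs
        rw [← lintegral_const_mul' _ _ ENNReal.ofReal_ne_top]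
        apply lintegral_mono
        intro y
        simp only
        rw [← mul_assoc]
        gcongr
        exact enorm_oseen_le (by linarith [hs.2]) hδ _ i j k
    _ = ENNReal.ofReal CO * ∫⁻ s in Ioo 0 t,
        ∫⁻ y, ENNReal.ofReal (((t - s + ‖x - y‖ ^ 2) ^ 2)⁻¹) * ‖f s y‖ₑ :=
        lintegral_const_mul' _ _ ENNReal.ofReal_ne_top
    _ ≤ ENNReal.ofReal CO * ENNReal.ofReal (C * N / √t) := by
        gcongr
        exact hC.ker T N f hf t ht x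
    _ = _ := (ENNReal.ofReal_mul hCO.le).symm

theorem measurable_os (δ : ℝ) (i j k : Fin 3) : Measurable fun q : (ℝ × E3) × (ℝ × E3) =>
    oseen (q.1.1 - q.2.1 + δ) (q.1.2 - q.2.2) i j k := by
  have h : Measurable fun q : (ℝ × E3) × (ℝ × E3) =>
      ((q.1.1 - q.2.1 + δ, q.1.2 - q.2.2) : ℝ × E3) := by fun_prop
  exact (measurable_oseen i j k).comp h

theorem os_int (hC : Su C) (hf : Hyp T N f) {t : ℝ} (ht : t ∈ Ioo 0 T) (x : E3) (i j k : Fin 3)
    {δ : ℝ} (hδ : 0 ≤ δ) :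
    Integrable (fun p : ℝ × E3 => oseen (t - p.1 + δ) (x - p.2) i j k * f p.1 p.2) (mT t) := by
  have hm : Measurable fun p : ℝ × E3 => oseen (t - p.1 + δ) (x - p.2) i j k * f p.1 p.2 :=
    ((measurable_os δ i j k).comp (f := fun p : ℝ × E3 => (((t, x) : ℝ × E3), p))
      (by fun_prop)).mul hf.meas
  refine ⟨hm.aestronglyMeasurable, ?_⟩
  rw [HasFiniteIntegral, lintegral_prod _ hm.enorm.aemeasurable]
  simp only [enorm_mul]
  exact (ker_int hC hf ht x i j k hδ).trans_lt ENNReal.ofReal_lt_top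

theorem bo_prod (hC : Su C) (hf : Hyp T N f) {t : ℝ} (ht : t ∈ Ioo 0 T) (x : E3) (i j k : Fin 3)
    {δ : ℝ} (hδ : 0 ≤ δ) :
    bo δ i j k f t x = ∫ p : ℝ × E3, oseen (t - p.1 + δ) (x - p.2) i j k * f p.1 p.2 ∂(mT t) :=
  (integral_prod _ (os_int hC hf ht x i j k hδ)).symm

theorem bo_add (hC : Su C) (hf : Hyp T N f) (hg : Hyp T N g) {h : ℝ → E3 → ℝ}
    (hh : Hyp T N h) (he : ∀ s y, h s y = f s y + g s y) {t : ℝ}
    (ht : t ∈ Ioo 0 T) (x : E3) (i j k : Fin 3) :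
    bo 0 i j k h t x = bo 0 i j k f t x + bo 0 i j k g t x := by
  rw [bo_prod hC hf ht x i j k le_rfl, bo_prod hC hg ht x i j k le_rfl,
    bo_prod hC hh ht x i j k le_rfl, ← integral_add (os_int hC hf ht x i j k le_rfl)
    (os_int hC hg ht x i j k le_rfl)]
  congr 1
  ext p
  rw [he, mul_add]

/-- convergence of the regularised operator -/
theorem bo_tendsto (hC : Su C) (hf : Hyp T N f) {t : ℝ} (ht : t ∈ Ioo 0 T) (x : E3)
    (i j k : Fin 3) :
    Tendsto (fun n : ℕ => bo (1 / ((n:ℝ) + 1)) i j k f t x) atTop (𝓝 (bo 0 i j k f t x)) := by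
  rw [bo_prod hC hf ht x i j k le_rfl]
  have e : ∀ n : ℕ, bo (1 / ((n:ℝ) + 1)) i j k f t x = ∫ p : ℝ × E3,
      oseen (t - p.1 + 1 / ((n:ℝ) + 1)) (x - p.2) i j k * f p.1 p.2 ∂(mT t) := fun n =>
    bo_prod hC hf ht x i j k (by positivity)
  simp only [e]
  have hm : Measurable fun p : ℝ × E3 => CO * ((t - p.1 + ‖x - p.2‖ ^ 2) ^ 2)⁻¹ * |f p.1 p.2| := by
    have h1 : Measurable fun p : ℝ × E3 => |f p.1 p.2| := hf.meas.abs
    have h2 : Measurable fun p : ℝ × E3 => CO * ((t - p.1 + ‖x - p.2‖ ^ 2) ^ 2)⁻¹ := by fun_prop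
    exact h2.mul h1
  have hm' : Measurable fun p : ℝ × E3 =>
      ENNReal.ofReal (((t - p.1 + ‖x - p.2‖ ^ 2) ^ 2)⁻¹) * ‖f p.1 p.2‖ₑ := by
    have h1 : Measurable fun p : ℝ × E3 => ‖f p.1 p.2‖ₑ := hf.meas.enorm
    have h2 : Measurable fun p : ℝ × E3 => ENNReal.ofReal (((t - p.1 + ‖x - p.2‖ ^ 2) ^ 2)⁻¹) := by
      fun_prop
    exact h2.mul h1
  refine tendsto_integral_of_dominated_convergence
    (fun p => CO * ((t - p.1 + ‖x - p.2‖ ^ 2) ^ 2)⁻¹ * |f p.1 p.2|)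
    (fun n => (os_int hC hf ht x i j k (δ := 1 / ((n:ℝ) + 1)) (by positivity)).1) ?_ ?_ ?_
  · refine ⟨hm.aestronglyMeasurable, ?_⟩
    have hCO := CO_pos
    have e2 : ∀ p : ℝ × E3, ‖CO * ((t - p.1 + ‖x - p.2‖ ^ 2) ^ 2)⁻¹ * |f p.1 p.2|‖ₑ =
        ENNReal.ofReal CO * (ENNReal.ofReal (((t - p.1 + ‖x - p.2‖ ^ 2) ^ 2)⁻¹) *
          ‖f p.1 p.2‖ₑ) := by
      intro p
      have e3 : ‖|f p.1 p.2|‖ₑ = ‖f p.1 p.2‖ₑ := by
        rw [← ofReal_norm, ← ofReal_norm, Real.norm_eq_abs, abs_abs, Real.norm_eq_abs]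
      rw [enorm_mul, enorm_mul, e3, ← ofReal_norm CO, Real.norm_of_nonneg hCO.le,
        ← ofReal_norm (_⁻¹), Real.norm_of_nonneg (by positivity), mul_assoc]
    rw [HasFiniteIntegral]
    simp only [e2]
    rw [lintegral_const_mul _ hm', lintegral_prod _ hm'.aemeasurable]
    exact ENNReal.mul_lt_top ENNReal.ofReal_lt_top
      ((hC.ker T N f hf t ht x).trans_lt ENNReal.ofReal_lt_top)
  · intro n
    filter_upwards [ae_mT (T := t)] with p hp
    rw [norm_mul, Real.norm_eq_abs, Real.norm_eq_abs]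
    gcongr
    refine (abs_oseen_le ?_ _ i j k).trans ?_
    · have : 0 < 1 / ((n:ℝ) + 1) := by positivity
      linarith [hp.2]
    · have h1 : 0 < t - p.1 := by linarith [hp.2]
      have h2 : 0 ≤ 1 / ((n:ℝ) + 1) := by positivity
      have := CO_pos
      gcongr
      linarith
  · filter_upwards [ae_mT (T := t)] with p hp
    have h1 : 0 < t - p.1 + 0 := by linarith [hp.2]
    have h2 := continuousAt_oseen h1 (x - p.2) i j k
    have h3 : Tendsto (fun n : ℕ => ((t - p.1 + 1 / ((n:ℝ) + 1), x - p.2) : ℝ × E3)) atTop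
        (𝓝 (t - p.1 + 0, x - p.2)) :=
      (tendsto_const_nhds.add tendsto_one_div_add_atTop_nhds_zero_nat).prodMk_nhds
        tendsto_const_nhds
    exact (h2.tendsto.comp h3).mul_const _

theorem measurable_bo (δ : ℝ) (i j k : Fin 3) (hf : Measurable (Function.uncurry f)) :
    Measurable (Function.uncurry (bo δ i j k f)) := by
  have h1 : StronglyMeasurable fun q : ((ℝ × E3) × ℝ) × E3 =>
      oseen (q.1.1.1 - q.1.2 + δ) (q.1.1.2 - q.2) i j k * f q.1.2 q.2 := by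
    have h2 : Measurable fun q : ((ℝ × E3) × ℝ) × E3 =>
        oseen (q.1.1.1 - q.1.2 + δ) (q.1.1.2 - q.2) i j k :=
      (measurable_oseen i j k).comp (f := fun q : ((ℝ × E3) × ℝ) × E3 =>
        ((q.1.1.1 - q.1.2 + δ, q.1.1.2 - q.2) : ℝ × E3)) (by fun_prop)
    have h3 : Measurable fun q : ((ℝ × E3) × ℝ) × E3 => f q.1.2 q.2 :=
      hf.comp (f := fun q : ((ℝ × E3) × ℝ) × E3 => ((q.1.2, q.2) : ℝ × E3)) (by fun_prop)
    exact (h2.mul h3).stronglyMeasurable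
  have h4 : StronglyMeasurable fun q : (ℝ × E3) × ℝ =>
      ∫ y, oseen (q.1.1 - q.2 + δ) (q.1.2 - y) i j k * f q.2 y := h1.integral_prod_right
  have h5 : StronglyMeasurable fun q : (ℝ × E3) × ℝ =>
      {q : (ℝ × E3) × ℝ | 0 < q.2 ∧ q.2 < q.1.1}.indicator (fun q : (ℝ × E3) × ℝ =>
      ∫ y, oseen (q.1.1 - q.2 + δ) (q.1.2 - y) i j k * f q.2 y) q := by
    refine h4.indicator ?_
    have m1 : Measurable fun q : (ℝ × E3) × ℝ => q.2 := measurable_snd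
    have m2 : Measurable fun q : (ℝ × E3) × ℝ => q.1.1 := measurable_fst.fst
    exact (measurableSet_lt measurable_const m1).inter (measurableSet_lt m1 m2)
  have h6 := h5.integral_prod_right' (ν := volume)
  have e : Function.uncurry (bo δ i j k f) = fun x : ℝ × E3 => ∫ s,
      {q : (ℝ × E3) × ℝ | 0 < q.2 ∧ q.2 < q.1.1}.indicator (fun q : (ℝ × E3) × ℝ =>
      ∫ y, oseen (q.1.1 - q.2 + δ) (q.1.2 - y) i j k * f q.2 y) (x, s) := by
    ext q
    change ∫ s in Ioo 0 q.1, ∫ y, oseen (q.1 - s + δ) (q.2 - y) i j k * f s y = _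
    rw [← integral_indicator measurableSet_Ioo]
    rfl
  rw [e]
  exact h6.measurable

end Pool.Agent.TF.K
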