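import Pool.Agent.TF.K.Def

/-!
# The square of an integral operator
-/

set_option autoImplicit false

namespace Pool.Agent.TF.K

open MeasureTheory Set Filter Topology
open scoped Real ENNReal

variable {X P : Type*} [MeasurableSpace X] [MeasurableSpace P] {ξ : Measure X} {ν : Measure P}
  [SFinite ξ] [SFinite ν] {K : X → P → ℝ} {F : P → ℝ} {C : ℝ≥0∞}

theorem sq_meas (hK : Measurable (Function.uncurry K)) (hF : Measurable F) :
    Measurable fun q : X × (P × P) => (K q.1 q.2.1 * F q.2.1) * (K q.1 q.2.2 * F q.2.2) := by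
  have h1 : Measurable fun q : X × (P × P) => K q.1 q.2.1 :=
    hK.comp (measurable_fst.prodMk measurable_snd.fst)
  have h2 : Measurable fun q : X × (P × P) => K q.1 q.2.2 :=
    hK.comp (measurable_fst.prodMk measurable_snd.snd)
  have h3 : Measurable fun q : X × (P × P) => F q.2.1 := hF.comp measurable_snd.fst
  have h4 : Measurable fun q : X × (P × P) => F q.2.2 := hF.comp measurable_snd.snd
  exact (h1.mul h3).mul (h2.mul h4)

theorem sq_integrable (hK : Measurable (Function.uncurry K)) (hF : Measurable F)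
    (hi : Integrable F ν) (hC : C < ∞) (h : ∀ p p', ∫⁻ x, ‖K x p‖ₑ * ‖K x p'‖ₑ ∂ξ ≤ C) :
    Integrable (fun q : X × (P × P) => (K q.1 q.2.1 * F q.2.1) * (K q.1 q.2.2 * F q.2.2))
      (ξ.prod (ν.prod ν)) := by
  refine ⟨(sq_meas hK hF).aestronglyMeasurable, ?_⟩
  have hm : Measurable fun q : X × (P × P) =>
      ‖(K q.1 q.2.1 * F q.2.1) * (K q.1 q.2.2 * F q.2.2)‖ₑ := (sq_meas hK hF).enorm
  have hK1 : ∀ p, Measurable fun x => ‖K x p‖ₑ := fun p =>
    (hK.comp (measurable_id.prodMk measurable_const)).enorm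
  rw [HasFiniteIntegral, lintegral_prod_symm _ hm.aemeasurable]
  calc ∫⁻ r : P × P, ∫⁻ x, ‖(K x r.1 * F r.1) * (K x r.2 * F r.2)‖ₑ ∂ξ ∂(ν.prod ν)
      = ∫⁻ r : P × P, (‖F r.1‖ₑ * ‖F r.2‖ₑ) * ∫⁻ x, ‖K x r.1‖ₑ * ‖K x r.2‖ₑ ∂ξ ∂(ν.prod ν) := by
        apply lintegral_congr
        intro r
        have hm1 : Measurable fun x => ‖K x r.1‖ₑ * ‖K x r.2‖ₑ := (hK1 r.1).mul (hK1 r.2)
        rw [← lintegral_const_mul _ hm1]
        apply lintegral_congr
        intro x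
        simp only [enorm_mul]
        ring
    _ ≤ ∫⁻ r : P × P, (‖F r.1‖ₑ * ‖F r.2‖ₑ) * C ∂(ν.prod ν) := by
        apply lintegral_mono
        intro r
        simp only
        gcongr
        exact h r.1 r.2
    _ = (∫⁻ p, ‖F p‖ₑ ∂ν) * (∫⁻ p, ‖F p‖ₑ ∂ν) * C := by
        have hm1 : Measurable fun r : P × P => ‖F r.1‖ₑ * ‖F r.2‖ₑ :=
          (hF.comp measurable_fst).enorm.mul (hF.comp measurable_snd).enorm
        rw [lintegral_mul_const _ hm1,
          lintegral_prod_mul hF.enorm.aemeasurable hF.enorm.aemeasurable]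
    _ < ∞ := ENNReal.mul_lt_top (ENNReal.mul_lt_top hi.2 hi.2) hC

omit [MeasurableSpace X] in
theorem sq_eq (x : X) : (∫ p, K x p * F p ∂ν) ^ 2 =
    ∫ r : P × P, (K x r.1 * F r.1) * (K x r.2 * F r.2) ∂(ν.prod ν) := by
  rw [sq, ← integral_prod_mul]

theorem sq_int (hK : Measurable (Function.uncurry K)) (hF : Measurable F)
    (hi : Integrable F ν) (hC : C < ∞) (h : ∀ p p', ∫⁻ x, ‖K x p‖ₑ * ‖K x p'‖ₑ ∂ξ ≤ C) :
    Integrable (fun x => (∫ p, K x p * F p ∂ν) ^ 2) ξ ∧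
    Integrable (fun r : P × P => F r.1 * F r.2 * ∫ x, K x r.1 * K x r.2 ∂ξ) (ν.prod ν) ∧
    ∫ x, (∫ p, K x p * F p ∂ν) ^ 2 ∂ξ =
      ∫ r : P × P, F r.1 * F r.2 * ∫ x, K x r.1 * K x r.2 ∂ξ ∂(ν.prod ν) := by
  have h1 := sq_integrable hK hF hi hC h
  have e1 : ∀ x, (∫ p, K x p * F p ∂ν) ^ 2 =
      ∫ r : P × P, (K x r.1 * F r.1) * (K x r.2 * F r.2) ∂(ν.prod ν) := sq_eq
  have e2 : ∀ r : P × P, ∫ x, (K x r.1 * F r.1) * (K x r.2 * F r.2) ∂ξ =
      F r.1 * F r.2 * ∫ x, K x r.1 * K x r.2 ∂ξ := by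
    intro r
    rw [← integral_const_mul]
    congr 1
    ext x
    ring
  refine ⟨?_, ?_, ?_⟩
  · simp only [e1]
    exact h1.integral_prod_left
  · simp only [← e2]
    exact h1.integral_prod_right
  · simp only [e1, ← e2]
    exact integral_integral_swap h1

end Pool.Agent.TF.K
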